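import Mathlib
import Pool.Agent.Y250.AM.D3
set_option autoImplicit false

/-! The mixed `L^(q s)_t L^q_x` functional of the extension operator: triangle inequality, limits, windows. -/

namespace Pool.Agent.Y250.AM

open MeasureTheory Set Complex Filter Topology
open scoped ENNReal NNReal ContDiff
open Pool.Agent.Y250.AN

/-- the space integral at a fixed time -/
noncomputable def LS (q : ℝ) (f : ℂ → ℂ) (t : ℝ) : ℝ≥0∞ := ∫⁻ x : ℂ, ‖Ext f (x, t)‖ₑ ^ q

/-- the mixed norm of the extension -/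
noncomputable def LL (s q : ℝ) (f : ℂ → ℂ) : ℝ≥0∞ := ((∫⁻ t, LS q f t ^ s) ^ (1 / s)) ^ (1 / q)

lemma ph_cont (p : ℂ × ℝ) : Continuous fun ξ : ℂ => ee (-(dt p.1 ξ + p.2 * ‖ξ‖ ^ 2)) := by
  apply ee_cont.comp
  have h4 : Continuous fun ξ : ℂ => dt p.1 ξ := dt_cont.comp (continuous_const.prodMk continuous_id)
  fun_prop

lemma Ext_integrable (f : ℂ → ℂ) (hf : Integrable f) (p : ℂ × ℝ) :
    Integrable fun ξ => ee (-(dt p.1 ξ + p.2 * ‖ξ‖ ^ 2)) * f ξ := by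
  refine hf.norm.mono' ((ph_cont p).aestronglyMeasurable.mul hf.1) (Filter.Eventually.of_forall fun ξ => ?_)
  rw [norm_mul, norm_ee, one_mul]

lemma Ext_add (f g : ℂ → ℂ) (hf : Integrable f) (hg : Integrable g) (p : ℂ × ℝ) :
    Ext (fun ξ => f ξ + g ξ) p = Ext f p + Ext g p := by
  unfold AN.Ext
  rw [← integral_add (Ext_integrable f hf p) (Ext_integrable g hg p)]
  simp only [mul_add]

lemma Ext_smul (c : ℂ) (f : ℂ → ℂ) (p : ℂ × ℝ) : Ext (fun ξ => c * f ξ) p = c * Ext f p := by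
  unfold AN.Ext
  rw [← integral_const_mul]
  congr 1
  ext ξ
  ring


lemma LS_meas (q : ℝ) (f : ℂ → ℂ) (hf : Measurable f) : Measurable (LS q f) := by
  unfold LS
  exact ((Ext_meas f hf).enorm.pow_const q).lintegral_prod_left'

lemma pw1 (X : ℝ≥0∞) (q s : ℝ) (hq : 0 < q) (hs : 0 < s) : (((X ^ (1 / s)) ^ (1 / q)) ^ q) ^ s = X := by
  rw [← ENNReal.rpow_mul _ (1 / q) q, one_div_mul_cancel hq.ne', ENNReal.rpow_one, ← ENNReal.rpow_mul,
    one_div_mul_cancel hs.ne', ENNReal.rpow_one]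

lemma pw2 (X : ℝ≥0∞) (q s : ℝ) (hq : 0 < q) (hs : 0 < s) : (((X ^ q) ^ s) ^ (1 / s)) ^ (1 / q) = X := by
  rw [← ENNReal.rpow_mul _ s (1 / s), mul_one_div_cancel hs.ne', ENNReal.rpow_one, ← ENNReal.rpow_mul,
    mul_one_div_cancel hq.ne', ENNReal.rpow_one]

lemma Ext_sec (f : ℂ → ℂ) (hf : Measurable f) (t : ℝ) : Measurable fun x : ℂ => Ext f (x, t) :=
  (Ext_meas f hf).comp (by fun_prop : Measurable fun x : ℂ => (x, t))

section
set_option linter.unusedSectionVars false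
variable {s : ℝ} [hs : Fact (1 ≤ s)]

lemma s_pos : 0 < s := by linarith [hs.out]

lemma LL_eq (q : ℝ) (hq : 1 ≤ q) (f : ℂ → ℂ) :
    LL s q f = (∫⁻ t, (LS q f t ^ (1 / q)) ^ (q * s)) ^ (1 / (q * s)) := by
  have hq0 : 0 < q := by linarith
  have hs0 : 0 < s := s_pos
  unfold LL
  rw [← ENNReal.rpow_mul]
  congr 1
  · apply lintegral_congr
    intro t
    rw [← ENNReal.rpow_mul]
    congr 1
    field_simp
  · field_simp

lemma LL_add (q : ℝ) (hq : 1 ≤ q) (f g : ℂ → ℂ) (hf : Integrable f) (hg : Integrable g)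
    (hfm : Measurable f) (hgm : Measurable g) : LL s q (fun ξ => f ξ + g ξ) ≤ LL s q f + LL s q g := by
  have hq0 : 0 < q := by linarith
  have hs0 : 0 < s := s_pos
  have hqs : 1 ≤ q * s := by nlinarith [hs.out]
  rw [LL_eq q hq, LL_eq q hq, LL_eq q hq]
  refine le_trans ?_ (ENNReal.lintegral_Lp_add_le ((LS_meas q f hfm).pow_const _).aemeasurable
    ((LS_meas q g hgm).pow_const _).aemeasurable hqs)
  apply ENNReal.rpow_le_rpow _ (by positivity)
  apply lintegral_mono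
  intro t
  apply ENNReal.rpow_le_rpow _ (by positivity)
  refine le_trans ?_ (ENNReal.lintegral_Lp_add_le (Ext_sec f hfm t).enorm.aemeasurable
    (Ext_sec g hgm t).enorm.aemeasurable hq)
  unfold LS
  apply ENNReal.rpow_le_rpow _ (by positivity)
  apply lintegral_mono
  intro x
  apply ENNReal.rpow_le_rpow _ (by linarith)
  rw [Ext_add f g hf hg (x, t)]
  exact enorm_add_le _ _

lemma LL_smul (q : ℝ) (hq : 1 ≤ q) (c : ℂ) (f : ℂ → ℂ) (hfm : Measurable f) :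
    LL s q (fun ξ => c * f ξ) = ‖c‖ₑ * LL s q f := by
  have hq0 : 0 < q := by linarith
  have hs0 : 0 < s := s_pos
  have h : ∀ t, LS q (fun ξ => c * f ξ) t = ‖c‖ₑ ^ q * LS q f t := by
    intro t
    unfold LS
    rw [← lintegral_const_mul _ ((Ext_sec f hfm t).enorm.pow_const q)]
    apply lintegral_congr
    intro x
    rw [Ext_smul, enorm_mul, ENNReal.mul_rpow_of_nonneg _ _ hq0.le]
  unfold LL
  simp only [h]
  have h2 : ∀ t, (‖c‖ₑ ^ q * LS q f t) ^ s = (‖c‖ₑ ^ q) ^ s * LS q f t ^ s := fun t =>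
    ENNReal.mul_rpow_of_nonneg _ _ hs0.le
  simp only [h2]
  rw [lintegral_const_mul _ ((LS_meas q f hfm).pow_const s), ENNReal.mul_rpow_of_nonneg _ _ (by positivity),
    ENNReal.mul_rpow_of_nonneg _ _ (by positivity), ← ENNReal.rpow_mul (‖c‖ₑ ^ q), mul_one_div_cancel hs0.ne',
    ENNReal.rpow_one, ← ENNReal.rpow_mul, mul_one_div_cancel hq0.ne', ENNReal.rpow_one]

lemma LL_null (q : ℝ) (hq : 1 ≤ q) : LL s q (fun _ => 0) = 0 := by
  have hq0 : 0 < q := by linarith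
  have hs0 : 0 < s := s_pos
  have h : ∀ p, Ext (fun _ => (0 : ℂ)) p = 0 := by
    intro p
    unfold AN.Ext
    simp
  unfold LL LS
  simp only [h, enorm_zero]
  rw [ENNReal.zero_rpow_of_pos (by linarith), lintegral_zero]
  simp only [ENNReal.zero_rpow_of_pos hs0]
  rw [lintegral_zero, ENNReal.zero_rpow_of_pos (by positivity), ENNReal.zero_rpow_of_pos (by positivity)]

lemma LL_sum (q : ℝ) (hq : 1 ≤ q) {ι : Type*} (S : Finset ι) (f : ι → ℂ → ℂ) (hf : ∀ i, Integrable (f i))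
    (hfm : ∀ i, Measurable (f i)) : LL s q (fun ξ => ∑ i ∈ S, f i ξ) ≤ ∑ i ∈ S, LL s q (f i) := by
  classical
  induction S using Finset.induction_on with
  | empty =>
    simp only [Finset.sum_empty]
    rw [LL_null q hq]
  | insert a S ha ih =>
    simp only [Finset.sum_insert ha]
    refine (LL_add q hq _ _ (hf a) ?_ (hfm a) ?_).trans (add_le_add le_rfl ih)
    · exact integrable_finsetSum S fun i _ => hf i
    · exact Finset.measurable_sum S fun i _ => hfm i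

lemma liminf_pow (r : ℝ) (hr : 0 < r) (u : ℕ → ℝ≥0∞) : (liminf u atTop) ^ r = liminf (fun n => u n ^ r) atTop := by
  have h := (ENNReal.orderIsoRpow r hr).liminf_apply (f := atTop) (u := u)
  exact h

/-- limits in `L^1` -/
lemma LL_lim (q : ℝ) (hq : 1 ≤ q) (f : ℂ → ℂ) (g : ℕ → ℂ → ℂ) (hf : Integrable f) (hg : ∀ n, Integrable (g n))
    (hgm : ∀ n, Measurable (g n)) (hl : Tendsto (fun n => ∫⁻ ξ, ‖g n ξ - f ξ‖ₑ) atTop (𝓝 0)) (C : ℝ≥0∞)
    (hC : ∀ n, LL s q (g n) ≤ C) : LL s q f ≤ C := by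
  have hq0 : 0 < q := by linarith
  have hs0 : 0 < s := s_pos
  have hpt : ∀ p, Tendsto (fun n => ‖Ext (g n) p‖ₑ ^ q) atTop (𝓝 (‖Ext f p‖ₑ ^ q)) := by
    intro p
    apply Tendsto.ennrpow_const
    apply Tendsto.enorm
    rw [tendsto_iff_edist_tendsto_0]
    refine tendsto_of_tendsto_of_tendsto_of_le_of_le tendsto_const_nhds hl (fun n => zero_le) (fun n => ?_)
    rw [edist_eq_enorm_sub]
    have e : Ext (g n) p - Ext f p = Ext (fun ξ => g n ξ - f ξ) p := by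
      unfold AN.Ext
      rw [← integral_sub (Ext_integrable _ (hg n) p) (Ext_integrable f hf p)]
      simp only [mul_sub]
    rw [e]
    exact Ext_sup _ _
  have h1 : ∀ t, LS q f t ≤ liminf (fun n => LS q (g n) t) atTop := by
    intro t
    unfold LS
    calc ∫⁻ x : ℂ, ‖Ext f (x, t)‖ₑ ^ q = ∫⁻ x : ℂ, liminf (fun n => ‖Ext (g n) (x, t)‖ₑ ^ q) atTop :=
          lintegral_congr fun x => (hpt (x, t)).liminf_eq.symm
      _ ≤ _ := lintegral_liminf_le fun n => (Ext_sec (g n) (hgm n) t).enorm.pow_const q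
  have h2 : ∀ n, ∫⁻ t, LS q (g n) t ^ s ≤ (C ^ q) ^ s := by
    intro n
    have h3 := ENNReal.rpow_le_rpow (ENNReal.rpow_le_rpow (hC n) hq0.le) hs0.le
    unfold LL at h3
    rw [pw1 _ q s hq0 hs0] at h3
    exact h3
  have h4 : ∫⁻ t, LS q f t ^ s ≤ (C ^ q) ^ s := by
    calc ∫⁻ t, LS q f t ^ s ≤ ∫⁻ t, liminf (fun n => LS q (g n) t ^ s) atTop := by
          apply lintegral_mono
          intro t
          simp only
          rw [← liminf_pow s hs0]
          exact ENNReal.rpow_le_rpow (h1 t) hs0.le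
      _ ≤ liminf (fun n => ∫⁻ t, LS q (g n) t ^ s) atTop :=
          lintegral_liminf_le fun n => (LS_meas q (g n) (hgm n)).pow_const s
      _ ≤ liminf (fun _ : ℕ => (C ^ q) ^ s) atTop := liminf_le_liminf (Filter.Eventually.of_forall h2)
      _ = _ := by simp
  unfold LL
  calc _ ≤ (((C ^ q) ^ s) ^ (1 / s)) ^ (1 / q) :=
        ENNReal.rpow_le_rpow (ENNReal.rpow_le_rpow h4 (by positivity)) (by positivity)
    _ = C := pw2 C q s hq0 hs0

lemma LL_pow (q : ℝ) (hq : 1 ≤ q) (f : ℂ → ℂ) : LL s q f ^ q = (∫⁻ t, LS q f t ^ s) ^ (1 / s) := by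
  unfold LL
  rw [← ENNReal.rpow_mul, one_div_mul_cancel (by linarith), ENNReal.rpow_one]

/-- larger exponents through the supremum -/
lemma LL_up (q q' : ℝ) (hq' : 1 ≤ q') (hqq : q' ≤ q) (f : ℂ → ℂ) (hfm : Measurable f) :
    LL s q f ≤ (∫⁻ ξ, ‖f ξ‖ₑ) ^ (1 - q' / q) * LL s q' f ^ (q' / q) := by
  have hq0 : 0 < q := by linarith
  have hs0 : 0 < s := s_pos
  have h0 : ∀ t, LS q f t ≤ (∫⁻ ξ, ‖f ξ‖ₑ) ^ (q - q') * LS q' f t := by
    intro t
    unfold LS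
    rw [← lintegral_const_mul _ ((Ext_sec f hfm t).enorm.pow_const q')]
    apply lintegral_mono
    intro x
    simp only
    have e : ‖Ext f (x, t)‖ₑ ^ q = ‖Ext f (x, t)‖ₑ ^ (q - q') * ‖Ext f (x, t)‖ₑ ^ q' := by
      rw [← ENNReal.rpow_add_of_nonneg _ _ (by linarith) (by linarith)]
      congr 1
      ring
    rw [e]
    refine mul_le_mul' ?_ le_rfl
    exact ENNReal.rpow_le_rpow (Ext_sup f (x, t)) (by linarith)
  have h1 : (∫⁻ t, LS q f t ^ s) ^ (1 / s) ≤ (∫⁻ ξ, ‖f ξ‖ₑ) ^ (q - q') * (∫⁻ t, LS q' f t ^ s) ^ (1 / s) := by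
    calc (∫⁻ t, LS q f t ^ s) ^ (1 / s)
        ≤ (∫⁻ t, ((∫⁻ ξ, ‖f ξ‖ₑ) ^ (q - q')) ^ s * LS q' f t ^ s) ^ (1 / s) := by
          apply ENNReal.rpow_le_rpow _ (by positivity)
          apply lintegral_mono
          intro t
          simp only
          rw [← ENNReal.mul_rpow_of_nonneg _ _ hs0.le]
          exact ENNReal.rpow_le_rpow (h0 t) hs0.le
      _ = _ := by
          rw [lintegral_const_mul _ ((LS_meas q' f hfm).pow_const s), ENNReal.mul_rpow_of_nonneg _ _ (by positivity),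
            ← ENNReal.rpow_mul _ s, mul_one_div_cancel hs0.ne', ENNReal.rpow_one]
  have h2 := ENNReal.rpow_le_rpow h1 (z := 1 / q) (by positivity)
  rw [ENNReal.mul_rpow_of_nonneg _ _ (by positivity), ← ENNReal.rpow_mul _ (q - q'), ← LL_pow q' hq',
    ← ENNReal.rpow_mul _ q'] at h2
  unfold LL at h2 ⊢
  refine h2.trans (le_of_eq ?_)
  congr 2
  · field_simp
  · ring

end

/-- the window -/
noncomputable def Wd (ψ : ℝ → ℂ) (σ : ℝ → ℂ × ℝ) (ξ : ℂ) : ℂ :=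
  ∫ w, ψ w * ee (-(dt (σ w).1 ξ + (σ w).2 * ‖ξ‖ ^ 2))

lemma dt_add_left (x y z : ℂ) : dt (x + y) z = dt x z + dt y z := by
  unfold dt
  rw [Complex.add_re, Complex.add_im]
  ring

lemma Ext_Wd (ψ : ℝ → ℂ) (σ : ℝ → ℂ × ℝ) (hψ : Integrable ψ) (hψm : Measurable ψ) (hσ : Measurable σ) (F : ℂ → ℂ)
    (hF : Integrable F) (hFm : Measurable F) (p : ℂ × ℝ) :
    Ext (fun ξ => Wd ψ σ ξ * F ξ) p = ∫ w, ψ w * Ext F (p + σ w) := by
  unfold AN.Ext Wd
  have hc : Measurable fun z : ℂ × ℝ => ee (-(dt (σ z.2).1 z.1 + (σ z.2).2 * ‖z.1‖ ^ 2)) := by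
    have h2 : Continuous fun p : (ℂ × ℝ) × ℂ => ee (-(dt p.1.1 p.2 + p.1.2 * ‖p.2‖ ^ 2)) := by
      apply ee_cont.comp
      have h4 : Continuous fun p : (ℂ × ℝ) × ℂ => dt p.1.1 p.2 :=
        dt_cont.comp ((continuous_fst.comp continuous_fst).prodMk continuous_snd)
      fun_prop
    exact h2.measurable.comp ((hσ.comp measurable_snd).prodMk measurable_fst)
  have hI : Integrable (Function.uncurry fun (ξ : ℂ) (w : ℝ) =>
      (ee (-(dt p.1 ξ + p.2 * ‖ξ‖ ^ 2)) * F ξ) * (ψ w * ee (-(dt (σ w).1 ξ + (σ w).2 * ‖ξ‖ ^ 2)))) := by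
    refine Integrable.mono' (hF.norm.mul_prod hψ.norm) ?_ (Filter.Eventually.of_forall fun z => ?_)
    · exact ((((ph_cont p).measurable.comp measurable_fst).mul (hFm.comp measurable_fst)).mul
        ((hψm.comp measurable_snd).mul hc)).aestronglyMeasurable
    · rw [Function.uncurry, norm_mul, norm_mul, norm_mul, norm_ee, norm_ee, one_mul, mul_one]
  have hs := integral_integral_swap hI
  have e1 : ∀ ξ, ee (-(dt p.1 ξ + p.2 * ‖ξ‖ ^ 2)) * ((∫ w, ψ w * ee (-(dt (σ w).1 ξ + (σ w).2 * ‖ξ‖ ^ 2))) * F ξ) =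
      ∫ w, (ee (-(dt p.1 ξ + p.2 * ‖ξ‖ ^ 2)) * F ξ) * (ψ w * ee (-(dt (σ w).1 ξ + (σ w).2 * ‖ξ‖ ^ 2))) := by
    intro ξ
    rw [integral_const_mul]
    ring
  simp only [e1]
  rw [hs]
  apply integral_congr_ae
  refine Filter.Eventually.of_forall fun w => ?_
  simp only
  rw [← integral_const_mul]
  apply integral_congr_ae
  refine Filter.Eventually.of_forall fun ξ => ?_
  simp only
  have e2 : ee (-(dt (p + σ w).1 ξ + (p + σ w).2 * ‖ξ‖ ^ 2)) =
      ee (-(dt p.1 ξ + p.2 * ‖ξ‖ ^ 2)) * ee (-(dt (σ w).1 ξ + (σ w).2 * ‖ξ‖ ^ 2)) := by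
    rw [← ee_add]
    congr 1
    rw [Prod.fst_add, Prod.snd_add, dt_add_left]
    ring
  rw [e2]
  ring

/-- windows -/
theorem LL_Wd {s : ℝ} [hs : Fact (1 ≤ s)] (q : ℝ) (hq : 1 ≤ q) (ψ : ℝ → ℂ) (σ : ℝ → ℂ × ℝ) (hψ : Integrable ψ)
    (hψm : Measurable ψ) (hσ : Measurable σ) (F : ℂ → ℂ) (hF : Integrable F) (hFm : Measurable F) :
    LL s q (fun ξ => Wd ψ σ ξ * F ξ) ≤ (∫⁻ w, ‖ψ w‖ₑ) * LL s q F := by
  have hq0 : 0 < q := by linarith
  have hs1 : 1 ≤ s := hs.out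
  have hs0 : 0 < s := s_pos
  have hEm := Ext_meas F hFm
  have ht : (∫⁻ w, ‖ψ w‖ₑ) ≠ ⊤ := hψ.2.ne
  have h1 : ∀ p, ‖Ext (fun ξ => Wd ψ σ ξ * F ξ) p‖ₑ ^ q ≤
      (∫⁻ w, ‖ψ w‖ₑ) ^ (q - 1) * ∫⁻ w, ‖ψ w‖ₑ * ‖Ext F (p + σ w)‖ₑ ^ q := by
    intro p
    rw [Ext_Wd ψ σ hψ hψm hσ F hF hFm p]
    refine (ENNReal.rpow_le_rpow (enorm_integral_le_lintegral_enorm _) hq0.le).trans ?_
    simp only [enorm_mul]
    exact jensen volume _ _ hψm.enorm (hEm.comp (hσ.const_add p)).enorm q hq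
  have hm2 : ∀ t : ℝ, Measurable fun z : ℂ × ℝ => ‖ψ z.2‖ₑ * ‖Ext F ((z.1, t) + σ z.2)‖ₑ ^ q := fun t =>
    ((hψm.comp measurable_snd).enorm).mul
      ((hEm.comp ((measurable_fst.prodMk measurable_const).add (hσ.comp measurable_snd))).enorm.pow_const q)
  -- at a fixed time
  have h2 : ∀ t, LS q (fun ξ => Wd ψ σ ξ * F ξ) t ≤
      (∫⁻ w, ‖ψ w‖ₑ) ^ (q - 1) * ∫⁻ w, ‖ψ w‖ₑ * LS q F (t + (σ w).2) := by
    intro t
    unfold LS
    refine (lintegral_mono fun x => h1 (x, t)).trans ?_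
    rw [lintegral_const_mul _ (hm2 t).lintegral_prod_right', lintegral_lintegral_swap (hm2 t).aemeasurable]
    apply le_of_eq
    congr 1
    apply lintegral_congr
    intro w
    have hmw : Measurable fun x : ℂ => ‖Ext F ((x, t) + σ w)‖ₑ ^ q :=
      (hEm.comp ((measurable_id.prodMk measurable_const).add_const (σ w))).enorm.pow_const q
    simp only
    rw [lintegral_const_mul _ hmw]
    congr 1
    have e : ∀ x : ℂ, ‖Ext F ((x, t) + σ w)‖ₑ ^ q = (fun x : ℂ => ‖Ext F (x, t + (σ w).2)‖ₑ ^ q) (x + (σ w).1) := by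
      intro x
      rfl
    simp only [e]
    exact lintegral_add_right_eq_self (μ := (volume : Measure ℂ)) (fun x => ‖Ext F (x, t + (σ w).2)‖ₑ ^ q) (σ w).1
  have hLSm := LS_meas q F hFm
  have hm3 : Measurable fun z : ℝ × ℝ => ‖ψ z.2‖ₑ * LS q F (z.1 + (σ z.2).2) ^ s :=
    ((hψm.comp measurable_snd).enorm).mul
      ((hLSm.comp (measurable_fst.add (measurable_snd.comp (hσ.comp measurable_snd)))).pow_const s)
  have h3 : ∀ t, LS q (fun ξ => Wd ψ σ ξ * F ξ) t ^ s ≤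
      (((∫⁻ w, ‖ψ w‖ₑ) ^ (q - 1)) ^ s * (∫⁻ w, ‖ψ w‖ₑ) ^ (s - 1)) * ∫⁻ w, ‖ψ w‖ₑ * LS q F (t + (σ w).2) ^ s := by
    intro t
    refine (ENNReal.rpow_le_rpow (h2 t) hs0.le).trans ?_
    rw [ENNReal.mul_rpow_of_nonneg _ _ hs0.le, mul_assoc]
    apply mul_le_mul' le_rfl
    exact jensen volume _ _ hψm.enorm (hLSm.comp ((measurable_snd.comp hσ).const_add t)) s hs1
  have h4 : ∫⁻ t, LS q (fun ξ => Wd ψ σ ξ * F ξ) t ^ s ≤ ((∫⁻ w, ‖ψ w‖ₑ) ^ q) ^ s * ∫⁻ t, LS q F t ^ s := by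
    refine (lintegral_mono h3).trans ?_
    rw [lintegral_const_mul _ hm3.lintegral_prod_right', lintegral_lintegral_swap hm3.aemeasurable]
    have h5 : ∀ w : ℝ, ∫⁻ t, ‖ψ w‖ₑ * LS q F (t + (σ w).2) ^ s = ‖ψ w‖ₑ * ∫⁻ t, LS q F t ^ s := by
      intro w
      have hmw : Measurable fun t : ℝ => LS q F (t + (σ w).2) ^ s :=
        (hLSm.comp (measurable_id.add_const _)).pow_const s
      rw [lintegral_const_mul _ hmw]
      congr 1
      exact lintegral_add_right_eq_self (μ := (volume : Measure ℝ)) (fun t => LS q F t ^ s) (σ w).2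
    simp only [h5]
    rw [lintegral_mul_const _ hψm.enorm, ← mul_assoc]
    apply le_of_eq
    congr 1
    rcases eq_or_ne (∫⁻ w, ‖ψ w‖ₑ) 0 with h0 | h0
    · rw [h0, mul_zero, ENNReal.zero_rpow_of_pos hq0, ENNReal.zero_rpow_of_pos hs0]
    · calc ((∫⁻ w, ‖ψ w‖ₑ) ^ (q - 1)) ^ s * (∫⁻ w, ‖ψ w‖ₑ) ^ (s - 1) * (∫⁻ w, ‖ψ w‖ₑ)
          = (∫⁻ w, ‖ψ w‖ₑ) ^ ((q - 1) * s) * (∫⁻ w, ‖ψ w‖ₑ) ^ (s - 1) * (∫⁻ w, ‖ψ w‖ₑ) ^ (1 : ℝ) := by
            rw [ENNReal.rpow_one, ENNReal.rpow_mul]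
        _ = ((∫⁻ w, ‖ψ w‖ₑ) ^ q) ^ s := by
          rw [← ENNReal.rpow_add _ _ h0 ht, ← ENNReal.rpow_add _ _ h0 ht, ← ENNReal.rpow_mul]
          congr 1
          ring
  unfold LL
  calc _ ≤ ((((∫⁻ w, ‖ψ w‖ₑ) ^ q) ^ s * ∫⁻ t, LS q F t ^ s) ^ (1 / s)) ^ (1 / q) :=
        ENNReal.rpow_le_rpow (ENNReal.rpow_le_rpow h4 (by positivity)) (by positivity)
    _ = _ := by
      rw [ENNReal.mul_rpow_of_nonneg _ _ (by positivity), ← ENNReal.rpow_mul _ s, mul_one_div_cancel hs0.ne',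
        ENNReal.rpow_one, ENNReal.mul_rpow_of_nonneg _ _ (by positivity), ← ENNReal.rpow_mul _ q,
        mul_one_div_cancel hq0.ne', ENNReal.rpow_one]

/-- The bound for the basic window. -/
theorem base (s : ℝ) (hs1 : 1 ≤ s) (q : ℝ) (hq3 : 2 + 1 / s < q) (hq4 : q < 4) : ∃ C : ℝ, 0 ≤ C ∧
    ∀ (b : ℝ → ℂ), Measurable b →
    ∀ B : ℝ, (∀ θ, ‖b θ‖ ≤ B) → (∀ θ, b (θ + Real.pi) = b θ) →
    LL s q (pf b k0) ≤ ENNReal.ofReal (C * B) * Am b ^ (1 / q) := by
  have hs0 : 0 < s := by linarith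
  have hsi : 0 < 1 / s := by positivity
  have hq0 : 0 < q := by linarith
  obtain ⟨C, σ, hC, hσ, h⟩ := fixedq s hs1 q hq3 hq4
  have hI : Integrable (fun t : ℝ => (1 + ‖t‖) ^ (-(σ * s))) := by
    apply integrable_one_add_norm
    simpa using hσ
  set A := ∫ t : ℝ, (1 + ‖t‖) ^ (-(σ * s)) with hA
  have hA0 : 0 ≤ A := integral_nonneg fun t => by positivity
  refine ⟨(C * A ^ (1 / s)) ^ (1 / q), by positivity, ?_⟩
  intro b hb B hB hper
  have hB0 : 0 ≤ B := (norm_nonneg _).trans (hB 0)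
  have hN : N2 b ≠ ⊤ := ((N2_le b B hB).trans_lt ENNReal.ofReal_lt_top).ne
  have h1 : ∫⁻ t, LS q (pf b k0) t ^ s ≤ ENNReal.ofReal ((C * B ^ (q - 2)) ^ s * A) * N2 b ^ s := by
    calc ∫⁻ t, LS q (pf b k0) t ^ s
        ≤ ∫⁻ t : ℝ, ENNReal.ofReal ((C * B ^ (q - 2)) ^ s * (1 + |t|) ^ (-(σ * s))) * N2 b ^ s := by
          apply lintegral_mono
          intro t
          simp only
          refine (ENNReal.rpow_le_rpow (h b hb B hB hper t) hs0.le).trans (le_of_eq ?_)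
          rw [ENNReal.mul_rpow_of_nonneg _ _ hs0.le, ENNReal.ofReal_rpow_of_nonneg (by positivity) hs0.le,
            Real.mul_rpow (by positivity) (by positivity), ← Real.rpow_mul (by positivity)]
          congr 4
          ring
      _ = _ := by
          rw [lintegral_mul_const' _ _ (ENNReal.rpow_ne_top_of_nonneg hs0.le hN)]
          congr 1
          rw [hA, ← integral_const_mul, ofReal_integral_eq_lintegral_ofReal]
          · simp only [Real.norm_eq_abs]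
          · exact hI.const_mul _
          · exact Filter.Eventually.of_forall fun t => by positivity
  have h2 : (∫⁻ t, LS q (pf b k0) t ^ s) ^ (1 / s) ≤ ENNReal.ofReal (C * A ^ (1 / s) * B ^ q) * Am b := by
    calc (∫⁻ t, LS q (pf b k0) t ^ s) ^ (1 / s)
        ≤ (ENNReal.ofReal ((C * B ^ (q - 2)) ^ s * A) * N2 b ^ s) ^ (1 / s) :=
          ENNReal.rpow_le_rpow h1 (by positivity)
      _ = ENNReal.ofReal ((C * B ^ (q - 2)) * A ^ (1 / s)) * N2 b := by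
          rw [ENNReal.mul_rpow_of_nonneg _ _ (by positivity), ← ENNReal.rpow_mul, mul_one_div_cancel hs0.ne',
            ENNReal.rpow_one, ENNReal.ofReal_rpow_of_nonneg (by positivity) (by positivity),
            Real.mul_rpow (by positivity) hA0, ← Real.rpow_mul (by positivity), mul_one_div_cancel hs0.ne',
            Real.rpow_one]
      _ ≤ ENNReal.ofReal ((C * B ^ (q - 2)) * A ^ (1 / s)) * (ENNReal.ofReal (B ^ (2 : ℝ)) * Am b) := by
          refine mul_le_mul' le_rfl ?_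
          rw [N2_eq]
          exact Np_le b hb B hB 2 (by norm_num)
      _ = _ := by
          rw [← mul_assoc, ← ENNReal.ofReal_mul (by positivity)]
          congr 2
          rcases eq_or_lt_of_le hB0 with h0 | h0
          · rw [← h0, Real.zero_rpow (show q - 2 ≠ 0 by linarith), Real.zero_rpow (show q ≠ 0 by linarith)]
            ring
          · have : B ^ q = B ^ (q - 2) * B ^ (2 : ℝ) := by
              rw [← Real.rpow_add h0]
              congr 1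
              ring
            rw [this]
            ring
  unfold LL
  refine (ENNReal.rpow_le_rpow h2 (by positivity)).trans (le_of_eq ?_)
  rw [ENNReal.mul_rpow_of_nonneg _ _ (by positivity), ENNReal.ofReal_rpow_of_nonneg (by positivity) (by positivity),
    Real.mul_rpow (by positivity) (by positivity), ← Real.rpow_mul hB0, mul_one_div_cancel hq0.ne', Real.rpow_one]

end Pool.Agent.Y250.AM
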