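import Mathlib
import Pool.Agent.Y250.AM.D7
set_option autoImplicit false

/-! The annulus. -/

namespace Pool.Agent.Y250.AM

open MeasureTheory Set Complex Filter Topology
open scoped ENNReal NNReal ContDiff
open Pool.Agent.Y250.AN

set_option linter.unusedSectionVars false
variable {mx : ℝ} [hmx : Fact (1 ≤ mx)]
open Pool.Agent.W354.LS (tri sinc_ft sinc_fourier_int tri_zero tri_nonneg tri_le_one tri_eq_zero)

/-- bump equal to one on `[1/4,1]` -/
noncomputable def ub : ContDiffBump (5 / 8 : ℝ) := ⟨3 / 8, 1 / 2, by norm_num, by norm_num⟩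

/-- the complex bump -/
noncomputable def uA (v : ℝ) : ℂ := (ub v : ℂ)

lemma uA_smooth : ContDiff ℝ ∞ uA := by
  unfold uA
  exact Complex.ofRealCLM.contDiff.comp ub.contDiff

lemma uA_one (v : ℝ) (hv : v ∈ Icc (1 / 4 : ℝ) 1) : uA v = 1 := by
  unfold uA
  have h : ub v = 1 := by
    apply ub.one_of_mem_closedBall
    rw [Real.closedBall_eq_Icc]
    simp only [ub]
    constructor
    · linarith [hv.1]
    · linarith [hv.2]
  rw [h]
  simp

lemma uA_zero (v : ℝ) (hv : v ∉ Ioo (1 / 8 : ℝ) (9 / 8)) : uA v = 0 := by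
  unfold uA
  have h : ub v = 0 := by
    by_contra hne
    apply hv
    have h2 : v ∈ Function.support ub := hne
    rw [ub.support_eq, Real.ball_eq_Ioo] at h2
    simp only [ub] at h2
    constructor
    · linarith [h2.1]
    · linarith [h2.2]
  rw [h]
  simp

lemma uA_tsupp : tsupport uA ⊆ Icc (1 / 8 : ℝ) (9 / 8) := by
  apply closure_minimal _ isClosed_Icc
  intro v hv
  by_contra h
  apply hv
  apply uA_zero
  intro h2
  exact h (Ioo_subset_Icc_self h2)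

lemma uA_cpt : HasCompactSupport uA := HasCompactSupport.intro isCompact_Icc (fun v hv => by
  apply uA_zero (v := v)
  intro h2
  exact hv (Ioo_subset_Icc_self (a := (1/8 : ℝ)) (b := 9/8) h2))

lemma uA_norm (v : ℝ) : ‖uA v‖ ≤ 1 := by
  unfold uA
  rw [Complex.norm_real, Real.norm_eq_abs, abs_of_nonneg ub.nonneg]
  exact ub.le_one

/-- the bump divided by the square root -/
noncomputable def uB (v : ℝ) : ℂ := uA v / (Real.sqrt v : ℂ)

lemma uB_zero (v : ℝ) (hv : v ∉ Ioo (1 / 8 : ℝ) (9 / 8)) : uB v = 0 := by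
  unfold uB
  rw [uA_zero v hv, zero_div]

lemma uB_smooth : ContDiff ℝ ∞ uB := by
  rw [contDiff_iff_contDiffAt]
  intro v
  by_cases hv : v ∈ tsupport uA
  · have hv1 := uA_tsupp hv
    have hv0 : 0 < v := by linarith [hv1.1]
    have h1 : ContDiffAt ℝ ∞ (fun v : ℝ => (Real.sqrt v : ℂ)) v :=
      Complex.ofRealCLM.contDiff.contDiffAt.comp v (Real.contDiffAt_sqrt hv0.ne')
    have h3 : (Real.sqrt v : ℂ) ≠ 0 := by
      have : Real.sqrt v ≠ 0 := (Real.sqrt_pos.2 hv0).ne'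
      exact_mod_cast this
    have e : uB = fun v => uA v * ((Real.sqrt v : ℂ))⁻¹ := by
      ext v
      unfold uB
      rw [div_eq_mul_inv]
    rw [e]
    exact uA_smooth.contDiffAt.mul (h1.inv h3)
  · have h4 : uB =ᶠ[𝓝 v] fun _ => 0 := by
      have h5 : uA =ᶠ[𝓝 v] 0 := notMem_tsupport_iff_eventuallyEq.1 hv
      filter_upwards [h5] with y hy
      unfold uB
      rw [hy]
      simp
    exact contDiffAt_const.congr_of_eventuallyEq h4

lemma uB_tsupp : tsupport uB ⊆ Icc (1 / 8 : ℝ) (9 / 8) := by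
  apply closure_minimal _ isClosed_Icc
  intro v hv
  by_contra h
  apply hv
  apply uB_zero
  intro h2
  exact h (Ioo_subset_Icc_self h2)

lemma uB_cpt : HasCompactSupport uB := HasCompactSupport.intro isCompact_Icc (fun v hv => by
  apply uB_zero (v := v)
  intro h2
  exact hv (Ioo_subset_Icc_self (a := (1/8 : ℝ)) (b := 9/8) h2))

lemma uB_norm (v : ℝ) : ‖uB v‖ ≤ 3 := by
  by_cases hv : v ∈ Ioo (1 / 8 : ℝ) (9 / 8)
  · unfold uB
    rw [norm_div, Complex.norm_real, Real.norm_eq_abs, abs_of_nonneg (Real.sqrt_nonneg _)]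
    have h1 : 1 / 3 ≤ Real.sqrt v := by
      apply Real.le_sqrt_of_sq_le
      linarith [hv.1]
    have h0 : 0 < Real.sqrt v := by linarith
    rw [div_le_iff₀ h0]
    have := uA_norm v
    linarith
  · rw [uB_zero v hv, norm_zero]
    norm_num

/-- annulus -/
noncomputable def kA (r : ℝ) : ℂ := if 1 / 4 ≤ r ^ 2 ∧ r ^ 2 < 1 then 1 else 0
/-- annulus divided by `r` -/
noncomputable def kB (r : ℝ) : ℂ := if 1 / 4 ≤ r ^ 2 ∧ r ^ 2 < 1 then ((|r|⁻¹ : ℝ) : ℂ) else 0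

lemma Bd_ann (u : ℝ → ℂ) (hu : ContDiff ℝ ∞ u) (hsupp : tsupport u ⊆ Icc (1 / 8 : ℝ) (9 / 8)) (hcpt : HasCompactSupport u)
    (M : ℝ) (hM : ∀ v, ‖u v‖ ≤ M) (q : ℝ) (hq : 2 + 1 / mx < q) :
    ∃ C : ℝ, 0 ≤ C ∧ Bd mx Pe q (fun r => if 1 / 4 ≤ r ^ 2 ∧ r ^ 2 < 1 then u (r ^ 2) else 0) C := by
  have hmi : (0 : ℝ) < 1 / mx := mxi
  have hz : ∀ v, v ∉ Icc (1 / 8 : ℝ) (9 / 8) → u v = 0 := by
    intro v hv
    apply image_eq_zero_of_notMem_tsupport
    intro h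
    exact hv (hsupp h)
  have hsm : ∀ q, 2 + 1 / mx < q → ∃ C : ℝ, 0 ≤ C ∧ Bd mx Pe q (fun r => u (r ^ 2)) C := fun q hq =>
    Bd_smooth u hu (hsupp.trans (fun v hv => ⟨by linarith [hv.1], by linarith [hv.2]⟩)) hcpt q hq
  have hm : Measurable fun r : ℝ => u (r ^ 2) := hu.continuous.measurable.comp (by fun_prop)
  have h0 : ∀ r : ℝ, r ^ 2 ∉ Icc 0 2 → u (r ^ 2) = 0 := by
    intro r hr
    apply hz
    intro h
    exact hr ⟨by linarith [h.1], by linarith [h.2]⟩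
  obtain ⟨C, hC, h⟩ := Bd_cut Pe (fun r => u (r ^ 2)) hm M (fun r => hM _) h0 hsm q hq
  have hM0 : 0 ≤ M := (norm_nonneg _).trans (hM 0)
  have hR : ∀ a : ℝ, R1 (fun r => if a ≤ r ^ 2 then u (r ^ 2) else 0) ≠ ⊤ := by
    intro a
    have := shell 1 1 M hM0 (fun r => if a ≤ r ^ 2 then u (r ^ 2) else 0) (fun r => by
      split_ifs
      · exact hM _
      · simpa using hM0) (fun r hr => by
      rw [h0 r (by norm_num at hr ⊢; exact hr)]
      simp)
    exact (this.trans_lt ENNReal.ofReal_lt_top).ne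
  have hmc : ∀ a : ℝ, Measurable fun r : ℝ => if a ≤ r ^ 2 then u (r ^ 2) else 0 := fun a =>
    Measurable.ite (measurableSet_le measurable_const (by fun_prop)) hm measurable_const
  have h1 := h (1 / 4) (by norm_num)
  have h2 := Bd_smul Pe q (by linarith) (-1) _ (hmc 1) C (h 1 (by norm_num))
  have hR2 : R1 (fun r => (-1 : ℂ) * if (1 : ℝ) ≤ r ^ 2 then u (r ^ 2) else 0) ≠ ⊤ := by
    have e : R1 (fun r => (-1 : ℂ) * if (1 : ℝ) ≤ r ^ 2 then u (r ^ 2) else 0) =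
        R1 (fun r => if (1 : ℝ) ≤ r ^ 2 then u (r ^ 2) else 0) := by
      unfold R1
      apply lintegral_congr
      intro r
      simp only [neg_one_mul, enorm_neg]
    rw [e]
    exact hR 1
  have h3 := Bd_add Pe q (by linarith) _ _ (hmc (1 / 4)) ((hmc 1).const_mul _) (hR _) hR2 C (‖(-1 : ℂ)‖ * C) hC
    (by positivity) h1 h2
  refine ⟨C + ‖(-1 : ℂ)‖ * C, by positivity, ?_⟩
  have e : (fun r : ℝ => if 1 / 4 ≤ r ^ 2 ∧ r ^ 2 < 1 then u (r ^ 2) else 0) = fun r : ℝ =>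
      (if 1 / 4 ≤ r ^ 2 then u (r ^ 2) else 0) + (-1 : ℂ) * (if (1 : ℝ) ≤ r ^ 2 then u (r ^ 2) else 0) := by
    ext r
    by_cases h1 : 1 / 4 ≤ r ^ 2
    · by_cases h2 : r ^ 2 < 1
      · rw [if_pos ⟨h1, h2⟩, if_pos h1, if_neg (by linarith)]
        ring
      · rw [if_neg (fun h => h2 h.2), if_pos h1, if_pos (by linarith)]
        ring
    · rw [if_neg (fun h => h1 h.1), if_neg h1, if_neg (by linarith)]
      ring
  rw [e]
  exact h3

lemma Bd_kA (q : ℝ) (hq : 2 + 1 / mx < q) : ∃ C : ℝ, 0 ≤ C ∧ Bd mx Pe q kA C := by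
  have hmi : (0 : ℝ) < 1 / mx := mxi
  obtain ⟨C, hC, h⟩ := Bd_ann uA uA_smooth uA_tsupp uA_cpt 1 uA_norm q hq
  refine ⟨C, hC, ?_⟩
  have e : kA = fun r : ℝ => if 1 / 4 ≤ r ^ 2 ∧ r ^ 2 < 1 then uA (r ^ 2) else 0 := by
    ext r
    unfold kA
    split_ifs with h
    · rw [uA_one _ ⟨h.1, h.2.le⟩]
    · rfl
  rw [e]
  exact h

lemma Bd_kB (q : ℝ) (hq : 2 + 1 / mx < q) : ∃ C : ℝ, 0 ≤ C ∧ Bd mx Pe q kB C := by
  have hmi : (0 : ℝ) < 1 / mx := mxi
  obtain ⟨C, hC, h⟩ := Bd_ann uB uB_smooth uB_tsupp uB_cpt 3 uB_norm q hq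
  refine ⟨C, hC, ?_⟩
  have e : kB = fun r : ℝ => if 1 / 4 ≤ r ^ 2 ∧ r ^ 2 < 1 then uB (r ^ 2) else 0 := by
    ext r
    unfold kB uB
    split_ifs with h
    · rw [uA_one _ ⟨h.1, h.2.le⟩, Real.sqrt_sq_eq_abs]
      push_cast
      rw [one_div]
    · rfl
  rw [e]
  exact h

end Pool.Agent.Y250.AM
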