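import Mathlib
import Pool.Agent.Y250.AM.E1
set_option autoImplicit false

/-! Summation over dyadic annuli. -/

namespace Pool.Agent.Y250.AM

open MeasureTheory Set Complex Filter Topology
open scoped ENNReal NNReal ContDiff
open Pool.Agent.Y250.AN

set_option linter.unusedSectionVars false
variable {mx : ℝ} [hmx : Fact (1 ≤ mx)]

/-- the indicator of `r² < 1` -/
noncomputable def dk (r : ℝ) : ℂ := if r ^ 2 < 1 then 1 else 0

noncomputable def Sn (n : ℕ) (r : ℝ) : ℂ := if (1 / 4 : ℝ) ^ n ≤ r ^ 2 ∧ r ^ 2 < 1 then 1 else 0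

lemma dk_meas : Measurable dk := by
  unfold dk
  exact Measurable.ite (measurableSet_lt (by fun_prop) measurable_const) measurable_const measurable_const

lemma Sn_meas (n : ℕ) : Measurable (Sn n) := by
  unfold Sn
  refine Measurable.ite ?_ measurable_const measurable_const
  have h1 : MeasurableSet {a : ℝ | (1 / 4) ^ n ≤ a ^ 2} := measurableSet_le measurable_const (by fun_prop)
  have h2 : MeasurableSet {a : ℝ | a ^ 2 < 1} := measurableSet_lt (by fun_prop) measurable_const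
  exact h1.inter h2

lemma dk_norm (r : ℝ) : ‖dk r‖ ≤ 1 := by
  unfold dk
  split_ifs <;> simp

lemma Sn_norm (n : ℕ) (r : ℝ) : ‖Sn n r‖ ≤ 1 := by
  unfold Sn
  split_ifs <;> simp

lemma R1_dk : R1 dk ≠ ⊤ := by
  have := shell 0 1 1 zero_le_one dk dk_norm (fun r hr => by
    unfold dk
    rw [if_neg]
    intro h
    exact hr ⟨by nlinarith [sq_nonneg r], by linarith⟩)
  exact (this.trans_lt ENNReal.ofReal_lt_top).ne

lemma R1_Sn (n : ℕ) : R1 (Sn n) ≠ ⊤ := by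
  have := shell 0 1 1 zero_le_one (Sn n) (Sn_norm n) (fun r hr => by
    unfold Sn
    rw [if_neg]
    intro h
    exact hr ⟨by nlinarith [sq_nonneg r], by linarith [h.2]⟩)
  exact (this.trans_lt ENNReal.ofReal_lt_top).ne

lemma Sn_succ (n : ℕ) (r : ℝ) : Sn (n + 1) r = Sn n r + kA (2 ^ n * r) := by
  unfold Sn kA
  have e : (2 ^ n * r) ^ 2 = 4 ^ n * r ^ 2 := by
    rw [mul_pow, ← pow_mul, mul_comm n 2, pow_mul]
    norm_num
  rw [e]
  have h4 : (0 : ℝ) < 4 ^ n := by positivity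
  have h4' : ((1 / 4 : ℝ)) ^ n = (4 ^ n)⁻¹ := by rw [one_div, inv_pow]
  have h4'' : ((1 / 4 : ℝ)) ^ (n + 1) = (4 ^ n)⁻¹ * (1 / 4) := by rw [pow_succ, h4']
  rw [h4', h4'']
  have h5 : (4 ^ n : ℝ)⁻¹ ≤ 1 := inv_le_one_of_one_le₀ (one_le_pow₀ (by norm_num))
  have i1 : (1 / 4 ≤ 4 ^ n * r ^ 2) ↔ (4 ^ n : ℝ)⁻¹ * (1 / 4) ≤ r ^ 2 := by
    rw [inv_mul_le_iff₀ h4]
  have i2 : (4 ^ n * r ^ 2 < 1) ↔ r ^ 2 < (4 ^ n : ℝ)⁻¹ := by
    rw [← one_div, lt_div_iff₀ h4, mul_comm]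
  simp only [i1, i2]
  by_cases h1 : (4 ^ n : ℝ)⁻¹ * (1 / 4) ≤ r ^ 2
  · by_cases h2 : r ^ 2 < 1
    · by_cases h3 : (4 ^ n : ℝ)⁻¹ ≤ r ^ 2
      · rw [if_pos ⟨h1, h2⟩, if_pos ⟨h3, h2⟩, if_neg (fun h => absurd h.2 (not_lt.2 h3)), add_zero]
      · rw [if_pos ⟨h1, h2⟩, if_neg (fun h => h3 h.1), if_pos ⟨h1, not_le.1 h3⟩, zero_add]
    · have h3 : ¬ r ^ 2 < (4 ^ n : ℝ)⁻¹ := fun h => h2 (h.trans_le h5)
      rw [if_neg (fun h => h2 h.2), if_neg (fun h => h2 h.2), if_neg (fun h => h3 h.2), add_zero]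
  · have h3 : ¬ (4 ^ n : ℝ)⁻¹ ≤ r ^ 2 := by
      intro h
      apply h1
      have : (4 ^ n : ℝ)⁻¹ * (1 / 4) ≤ (4 ^ n : ℝ)⁻¹ := by
        have : (0:ℝ) < (4 ^ n : ℝ)⁻¹ := by positivity
        linarith
      linarith
    rw [if_neg (fun h => h1 h.1), if_neg (fun h => h3 h.1), if_neg (fun h => h1 h.1), add_zero]

lemma pf_dil (b k : ℝ → ℂ) (ρ : ℝ) (hρ : 0 < ρ) (ξ : ℂ) : pf b (fun r => k (ρ⁻¹ * r)) ξ = pf b k (ρ⁻¹ • ξ) := by
  unfold pf
  have h1 : arg (ρ⁻¹ • ξ) = arg ξ := by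
    rw [Complex.real_smul]
    exact Complex.arg_real_mul ξ (by positivity)
  rw [h1, norm_smul, Real.norm_eq_abs, abs_of_pos (by positivity)]

lemma Bd_dil (P : (ℝ → ℂ) → Prop) (q : ℝ) (hq : 1 ≤ q) (k : ℝ → ℂ) (hk : Measurable k) (C : ℝ)
    (h : Bd mx P q k C) (ρ : ℝ) (hρ : 0 < ρ) : Bd mx P q (fun r => k (ρ⁻¹ * r)) (ρ ^ (ax mx q) * C) := by
  intro b hb B hB hP
  have e : pf b (fun r => k (ρ⁻¹ * r)) = fun ξ => pf b k (ρ⁻¹ • ξ) := by
    ext ξ
    exact pf_dil b k ρ hρ ξ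
  rw [e, LL_dil q hq ρ hρ _ (pf_meas b k hb hk)]
  refine (mul_le_mul_right (h b hb B hB hP) _).trans (le_of_eq ?_)
  rw [← mul_assoc, ← ENNReal.ofReal_mul (by positivity)]
  congr 2
  ring

lemma Bd_Sn (q : ℝ) (hq : 2 + 1 / mx < q) : ∃ C : ℝ, 0 ≤ C ∧ ∀ n, Bd mx Pp q (Sn n) C := by
  have hmi : (0 : ℝ) < 1 / mx := mxi
  obtain ⟨C, hC, h⟩ := Bd_kA_all q hq
  have hq1 : 1 ≤ q := by linarith
  set a : ℝ := ax mx q with ha
  have ha0 : 0 < a := ax_pos q hq
  set ρ : ℝ := (1 / 2 : ℝ) ^ a with hρ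
  have hρ0 : 0 < ρ := by positivity
  have hρ1 : ρ < 1 := Real.rpow_lt_one (by norm_num) (by norm_num) ha0
  have key : ∀ n, Bd mx Pp q (Sn n) (C * ∑ k ∈ Finset.range n, ρ ^ k) := by
    intro n
    induction n with
    | zero =>
      intro b hb B hB hP
      have e : pf b (Sn 0) = fun _ => 0 := by
        ext ξ
        unfold pf Sn
        rw [if_neg, mul_zero]
        intro h
        have := h.1
        rw [pow_zero] at this
        linarith [h.2]
      have h0 : LL mx q (pf b (Sn 0)) = 0 := by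
        rw [e]
        exact LL_null q hq1
      rw [h0]
      exact zero_le
    | succ n ih =>
      have h2 : Bd mx Pp q (fun r => kA (2 ^ n * r)) (ρ ^ n * C) := by
        have h3 := Bd_dil Pp q hq1 kA kA_meas C h ((1 / 2 : ℝ) ^ n) (by positivity)
        have e1 : (((1 / 2 : ℝ) ^ n)⁻¹) = 2 ^ n := by
          rw [one_div, inv_pow, inv_inv]
        have e2 : ((1 / 2 : ℝ) ^ n) ^ (ax mx q) = ρ ^ n := by
          rw [hρ, ← Real.rpow_natCast, ← Real.rpow_natCast, ← Real.rpow_mul (by norm_num),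
            ← Real.rpow_mul (by norm_num), mul_comm]
        rw [e1, e2] at h3
        exact h3
      have e : Sn (n + 1) = fun r => Sn n r + kA (2 ^ n * r) := by
        ext r
        exact Sn_succ n r
      rw [e]
      have hm : Measurable fun r : ℝ => kA (2 ^ n * r) := kA_meas.comp (by fun_prop)
      have hR : R1 (fun r : ℝ => kA (2 ^ n * r)) ≠ ⊤ := by
        have := shell 0 1 1 zero_le_one (fun r : ℝ => kA (2 ^ n * r)) (fun r => kA_norm _) (fun r hr => by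
          unfold kA
          rw [if_neg]
          intro h
          apply hr
          have h2 : (1 : ℝ) ≤ 2 ^ n := one_le_pow₀ (by norm_num)
          have h3 := h.2
          rw [mul_pow] at h3
          have h4 : (1 : ℝ) ≤ (2 ^ n) ^ 2 := one_le_pow₀ h2
          exact ⟨by nlinarith [sq_nonneg r], by nlinarith [sq_nonneg r]⟩)
        exact (this.trans_lt ENNReal.ofReal_lt_top).ne
      have h5 := Bd_add Pp q hq1 (Sn n) _ (Sn_meas n) hm (R1_Sn n) hR _ _ (by positivity) (by positivity) ih h2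
      rw [Finset.sum_range_succ, mul_add, mul_comm C (ρ ^ n)]
      exact h5
  refine ⟨C * (1 - ρ)⁻¹, mul_nonneg hC (inv_nonneg.2 (by linarith)), fun n => ?_⟩
  refine Bd_mono Pp q _ _ _ ?_ (key n)
  apply mul_le_mul_of_nonneg_left _ hC
  rw [← tsum_geometric_of_lt_one hρ0.le hρ1]
  exact Summable.sum_le_tsum _ (fun i _ => by positivity) (summable_geometric_of_lt_one hρ0.le hρ1)

theorem Bd_dk (q : ℝ) (hq : 2 + 1 / mx < q) : ∃ C : ℝ, 0 ≤ C ∧ Bd mx Pp q dk C := by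
  have hmi : (0 : ℝ) < 1 / mx := mxi
  obtain ⟨C, hC, h⟩ := Bd_Sn q hq
  refine ⟨C, hC, Bd_lim Pp q (by linarith) dk Sn dk_meas Sn_meas R1_dk R1_Sn C h ?_⟩
  have hb : ∀ n, R1 (fun r => Sn n r - dk r) ≤ ENNReal.ofReal (1 * (1 / 4 : ℝ) ^ n) := by
    intro n
    apply shell 0 ((1 / 4 : ℝ) ^ n) 1 zero_le_one
    · intro r
      unfold Sn dk
      by_cases h2 : r ^ 2 < 1
      · by_cases h1 : (1 / 4 : ℝ) ^ n ≤ r ^ 2
        · rw [if_pos ⟨h1, h2⟩, if_pos h2]; simp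
        · rw [if_neg (fun h => h1 h.1), if_pos h2]; simp
      · rw [if_neg (fun h => h2 h.2), if_neg h2]; simp
    · intro r hr
      have h1 : (1 / 4 : ℝ) ^ n ≤ r ^ 2 := by
        by_contra hc
        apply hr
        have : (0 : ℝ) < (1 / 4) ^ n := by positivity
        exact ⟨by nlinarith [sq_nonneg r], by linarith [not_le.1 hc]⟩
      unfold Sn dk
      by_cases h2 : r ^ 2 < 1
      · rw [if_pos ⟨h1, h2⟩, if_pos h2, sub_self]
      · rw [if_neg (fun h => h2 h.2), if_neg h2, sub_self]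
  have hl : Tendsto (fun n : ℕ => ENNReal.ofReal (1 * (1 / 4 : ℝ) ^ n)) atTop (𝓝 0) := by
    rw [← ENNReal.ofReal_zero]
    apply ENNReal.tendsto_ofReal
    simp only [one_mul]
    exact tendsto_pow_atTop_nhds_zero_of_lt_one (by norm_num) (by norm_num)
  exact tendsto_of_tendsto_of_tendsto_of_le_of_le tendsto_const_nhds hl (fun n => zero_le) hb

end Pool.Agent.Y250.AM
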