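import Mathlib
import Pool.Agent.Y250.AM.E2
set_option autoImplicit false

/-! From restricted type bounds to strong type bounds. -/

namespace Pool.Agent.Y250.AM

open MeasureTheory Set Complex Filter Topology
open scoped ENNReal NNReal ContDiff
open Pool.Agent.Y250.AN

set_option linter.unusedSectionVars false
variable {mx : ℝ} [hmx : Fact (1 ≤ mx)]

lemma sum_int_geom (ρ : ℝ) (h0 : 0 ≤ ρ) (h1 : ρ < 1) : ∃ C : ℝ, 0 ≤ C ∧ ∀ (s : Finset ℤ) (j : ℤ),
    ∑ k ∈ s, ρ ^ (k - j).natAbs ≤ C := by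
  have hs : Summable fun n : ℤ => ρ ^ n.natAbs := by
    have e1 : (fun n : ℕ => ρ ^ (n : ℤ).natAbs) = fun n => ρ ^ n := by
      ext n
      rw [Int.natAbs_natCast]
    have e2 : (fun n : ℕ => ρ ^ (-(n : ℤ)).natAbs) = fun n => ρ ^ n := by
      ext n
      rw [Int.natAbs_neg, Int.natAbs_natCast]
    refine Summable.of_nat_of_neg (f := fun n : ℤ => ρ ^ n.natAbs) ?_ ?_
    · exact e1 ▸ summable_geometric_of_lt_one h0 h1
    · exact e2 ▸ summable_geometric_of_lt_one h0 h1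
  refine ⟨∑' n : ℤ, ρ ^ n.natAbs, tsum_nonneg fun n => by positivity, fun s j => ?_⟩
  have hs2 : Summable fun k : ℤ => ρ ^ (k - j).natAbs :=
    ((Equiv.subRight j).summable_iff (f := fun n : ℤ => ρ ^ n.natAbs)).2 hs
  refine (hs2.sum_le_tsum s fun i _ => by positivity).trans (le_of_eq ?_)
  exact (Equiv.subRight j).tsum_eq (fun n : ℤ => ρ ^ n.natAbs)

/-- the pointwise inequality behind the interpolation theorem -/
lemma marc (q0 q q1 : ℝ) (h0 : 1 ≤ q0) (h01 : q0 < q) (h12 : q < q1) : ∃ C : ℝ, 0 ≤ C ∧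
    ∀ (s : Finset ℤ) (a : ℤ → ℝ), (∀ k, 0 ≤ a k) → (∑ k ∈ s, a k) ^ q ≤
      C * ∑ k ∈ s, ((2 : ℝ) ^ ((k : ℝ) * (q - q0)) * a k ^ q0 + (2 : ℝ) ^ ((k : ℝ) * (q - q1)) * a k ^ q1) := by
  have hq0 : 0 < q0 := by linarith
  have hq : 0 < q := by linarith
  have hq1 : 0 < q1 := by linarith
  set δ : ℝ := min ((q - q0) / q0) ((q1 - q) / q1) with hδ
  have hδ0 : 0 < δ := lt_min (div_pos (by linarith) hq0) (div_pos (by linarith) hq1)
  set ρ : ℝ := (2 : ℝ) ^ (-δ) with hρ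
  have hρ0 : 0 < ρ := by positivity
  have hρ1 : ρ < 1 := Real.rpow_lt_one_of_one_lt_of_neg (by norm_num) (by linarith)
  obtain ⟨C, hC, hsum⟩ := sum_int_geom ρ hρ0.le hρ1
  refine ⟨((2 : ℝ) ^ δ * C) ^ q, by positivity, fun s a ha => ?_⟩
  set S : ℝ := ∑ k ∈ s, ((2 : ℝ) ^ ((k : ℝ) * (q - q0)) * a k ^ q0 + (2 : ℝ) ^ ((k : ℝ) * (q - q1)) * a k ^ q1) with hS
  have hterm : ∀ k : ℤ, 0 ≤ (2 : ℝ) ^ ((k : ℝ) * (q - q0)) * a k ^ q0 + (2 : ℝ) ^ ((k : ℝ) * (q - q1)) * a k ^ q1 := by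
    intro k
    have := ha k
    positivity
  have hS0 : 0 ≤ S := Finset.sum_nonneg fun k _ => hterm k
  rcases hS0.eq_or_lt with hS1 | hS1
  · -- all a k vanish
    have hz : ∀ k ∈ s, a k = 0 := by
      intro k hk
      have h1 := (Finset.sum_eq_zero_iff_of_nonneg fun k _ => hterm k).1 hS1.symm k hk
      have h2 : (2 : ℝ) ^ ((k : ℝ) * (q - q0)) * a k ^ q0 = 0 := by
        have h3 : 0 ≤ (2 : ℝ) ^ ((k : ℝ) * (q - q0)) * a k ^ q0 := by have := ha k; positivity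
        have h4 : 0 ≤ (2 : ℝ) ^ ((k : ℝ) * (q - q1)) * a k ^ q1 := by have := ha k; positivity
        linarith
      have h3 : a k ^ q0 = 0 := by
        rcases mul_eq_zero.1 h2 with h | h
        · exact absurd h (by positivity)
        · exact h
      exact (Real.rpow_eq_zero (ha k) hq0.ne').1 h3
    rw [Finset.sum_eq_zero hz, ← hS1, mul_zero, Real.zero_rpow hq.ne']
  · set σ : ℝ := Real.logb 2 S / q with hσ
    have hSσ : S = (2 : ℝ) ^ (q * σ) := by
      rw [hσ, mul_div_cancel₀ _ hq.ne', Real.rpow_logb (by norm_num) (by norm_num) hS1]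
    have hak : ∀ k ∈ s, a k ≤ (2 : ℝ) ^ σ * ((2 : ℝ) ^ δ * ρ ^ (k - ⌊σ⌋).natAbs) := by
      intro k hk
      have hk1 : (2 : ℝ) ^ ((k : ℝ) * (q - q0)) * a k ^ q0 + (2 : ℝ) ^ ((k : ℝ) * (q - q1)) * a k ^ q1 ≤ S :=
        Finset.single_le_sum (fun k _ => hterm k) hk
      have n1 : 0 ≤ (2 : ℝ) ^ ((k : ℝ) * (q - q0)) * a k ^ q0 := by have := ha k; positivity
      have n2 : 0 ≤ (2 : ℝ) ^ ((k : ℝ) * (q - q1)) * a k ^ q1 := by have := ha k; positivity
      -- general: from 2^x a^p ≤ 2^y deduce a ≤ 2^((y-x)/p)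
      have gen : ∀ (x y p : ℝ), 0 < p → (2 : ℝ) ^ x * a k ^ p ≤ (2 : ℝ) ^ y → a k ≤ (2 : ℝ) ^ ((y - x) / p) := by
        intro x y p hp h
        have h1 : a k ^ p ≤ (2 : ℝ) ^ (y - x) := by
          rw [Real.rpow_sub (by norm_num), le_div_iff₀ (by positivity), mul_comm]
          exact h
        calc a k = (a k ^ p) ^ (1 / p) := by
              rw [← Real.rpow_mul (ha k), mul_one_div_cancel hp.ne', Real.rpow_one]
          _ ≤ ((2 : ℝ) ^ (y - x)) ^ (1 / p) := Real.rpow_le_rpow (Real.rpow_nonneg (ha k) _) h1 (by positivity)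
          _ = _ := by rw [← Real.rpow_mul (by norm_num)]; congr 1; field_simp
      have g0 := gen _ _ q0 hq0 ((le_add_of_nonneg_right n2).trans (hk1.trans (le_of_eq hSσ)))
      have g1 := gen _ _ q1 hq1 ((le_add_of_nonneg_left n1).trans (hk1.trans (le_of_eq hSσ)))
      have hfl := Int.floor_le σ
      have hfl2 := Int.lt_floor_add_one σ
      have hnat : (ρ ^ (k - ⌊σ⌋).natAbs : ℝ) = (2 : ℝ) ^ (-δ * |(k : ℝ) - ⌊σ⌋|) := by
        rw [← Real.rpow_natCast, hρ, ← Real.rpow_mul (by norm_num)]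
        congr 2
        rw [Nat.cast_natAbs]
        push_cast
        rfl
      rw [hnat, ← Real.rpow_add (by norm_num), ← Real.rpow_add (by norm_num)]
      rcases le_or_gt σ k with hc | hc
      · refine g0.trans (Real.rpow_le_rpow_of_exponent_le (by norm_num) ?_)
        have e1 : (q * σ - k * (q - q0)) / q0 = σ - (k - σ) * ((q - q0) / q0) := by
          field_simp
          ring
        have e2 : |(k : ℝ) - ⌊σ⌋| ≤ (k - σ) + 1 := by
          rw [abs_le]
          constructor <;> linarith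
        have e3 : (k - σ) * δ ≤ (k - σ) * ((q - q0) / q0) :=
          mul_le_mul_of_nonneg_left (min_le_left _ _) (by linarith)
        rw [e1]
        nlinarith
      · refine g1.trans (Real.rpow_le_rpow_of_exponent_le (by norm_num) ?_)
        have e1 : (q * σ - k * (q - q1)) / q1 = σ - (σ - k) * ((q1 - q) / q1) := by
          field_simp
          ring
        have e2 : |(k : ℝ) - ⌊σ⌋| ≤ (σ - k) + 1 := by
          have h1 : (k : ℝ) ≤ ⌊σ⌋ := by
            have : k ≤ ⌊σ⌋ := Int.le_floor.2 hc.le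
            exact_mod_cast this
          rw [abs_le]
          constructor <;> linarith
        have e3 : (σ - k) * δ ≤ (σ - k) * ((q1 - q) / q1) :=
          mul_le_mul_of_nonneg_left (min_le_right _ _) (by linarith)
        rw [e1]
        nlinarith
    have hsumk : ∑ k ∈ s, a k ≤ (2 : ℝ) ^ σ * ((2 : ℝ) ^ δ * C) := by
      calc ∑ k ∈ s, a k ≤ ∑ k ∈ s, (2 : ℝ) ^ σ * ((2 : ℝ) ^ δ * ρ ^ (k - ⌊σ⌋).natAbs) := Finset.sum_le_sum hak
        _ = (2 : ℝ) ^ σ * ((2 : ℝ) ^ δ * ∑ k ∈ s, ρ ^ (k - ⌊σ⌋).natAbs) := by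
            rw [Finset.mul_sum, Finset.mul_sum]
        _ ≤ _ := by
            gcongr
            exact hsum s _
    calc (∑ k ∈ s, a k) ^ q ≤ ((2 : ℝ) ^ σ * ((2 : ℝ) ^ δ * C)) ^ q :=
          Real.rpow_le_rpow (Finset.sum_nonneg fun k _ => ha k) hsumk hq.le
      _ = ((2 : ℝ) ^ δ * C) ^ q * S := by
          rw [Real.mul_rpow (by positivity) (by positivity), ← Real.rpow_mul (by norm_num), hSσ, mul_comm σ q]
          ring

/-- level sets -/
noncomputable def lev (b : ℝ → ℂ) (k : ℤ) (θ : ℝ) : ℂ :=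
  if (2 : ℝ) ^ k ≤ ‖b θ‖ ∧ ‖b θ‖ < (2 : ℝ) ^ (k + 1) then b θ else 0

lemma lev_meas (b : ℝ → ℂ) (hb : Measurable b) (k : ℤ) : Measurable (lev b k) := by
  unfold lev
  refine Measurable.ite ?_ hb measurable_const
  exact (measurableSet_le measurable_const hb.norm).inter (measurableSet_lt hb.norm measurable_const)

lemma lev_norm (b : ℝ → ℂ) (k : ℤ) (θ : ℝ) : ‖lev b k θ‖ ≤ (2 : ℝ) ^ (k + 1) := by
  unfold lev
  split_ifs with h
  · exact h.2.le
  · rw [norm_zero]; positivity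

lemma lev_per (b : ℝ → ℂ) (hP : Pp b) (k : ℤ) : Pp (lev b k) := by
  intro θ
  unfold lev
  rw [hP θ]

/-- measure of the level sets -/
lemma lev_Am (b : ℝ → ℂ) (hb : Measurable b) (q : ℝ) (hq : 0 < q) (k : ℤ) :
    ENNReal.ofReal ((2 : ℝ) ^ ((k : ℝ) * q)) * Am (lev b k) ≤
      ∫⁻ θ in Ioo (-Real.pi) Real.pi, ‖lev b k θ‖ₑ ^ q := by
  have hms : MeasurableSet {θ | lev b k θ ≠ 0} := ((lev_meas b hb k) (measurableSet_singleton 0)).compl
  have hmi : Measurable fun θ => {θ | lev b k θ ≠ 0}.indicator (fun _ => (1 : ℝ≥0∞)) θ :=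
    measurable_const.indicator hms
  rw [Am_eq _ (lev_meas b hb k), ← lintegral_const_mul _ hmi]
  apply lintegral_mono
  intro θ
  by_cases h : lev b k θ ≠ 0
  · have h2 : (2 : ℝ) ^ k ≤ ‖lev b k θ‖ := by
      unfold lev at h ⊢
      split_ifs at h ⊢ with h3
      · exact h3.1
      · exact absurd rfl h
    have hm : θ ∈ {θ | lev b k θ ≠ 0} := h
    simp only [indicator_of_mem hm, mul_one]
    rw [← ofReal_norm, ENNReal.ofReal_rpow_of_nonneg (norm_nonneg _) hq.le]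
    apply ENNReal.ofReal_le_ofReal
    rw [Real.rpow_mul (by norm_num), Real.rpow_intCast]
    exact Real.rpow_le_rpow (by positivity) h2 hq.le
  · have hm : θ ∉ {θ | lev b k θ ≠ 0} := h
    simp only [indicator_of_notMem hm, mul_zero]
    exact zero_le

/-- the truncation -/
noncomputable def trc (b : ℝ → ℂ) (s : Finset ℤ) (θ : ℝ) : ℂ := ∑ k ∈ s, lev b k θ

lemma lev_disj (b : ℝ → ℂ) (θ : ℝ) (k : ℤ) (h : lev b k θ ≠ 0) (j : ℤ) (hj : j ≠ k) : lev b j θ = 0 := by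
  unfold lev at h ⊢
  split_ifs at h with h1
  · rw [if_neg]
    intro h2
    rcases lt_or_gt_of_ne hj with h3 | h3
    · have h4 : (2 : ℝ) ^ (j + 1) ≤ (2 : ℝ) ^ k := zpow_le_zpow_right₀ (by norm_num) (by omega)
      linarith [h1.1, h2.2]
    · have h4 : (2 : ℝ) ^ (k + 1) ≤ (2 : ℝ) ^ j := zpow_le_zpow_right₀ (by norm_num) (by omega)
      linarith [h1.2, h2.1]
  · exact absurd rfl h

lemma lev_sum_le (b : ℝ → ℂ) (q : ℝ) (hq : 0 < q) (s : Finset ℤ) (θ : ℝ) :
    ∑ k ∈ s, ‖lev b k θ‖ₑ ^ q ≤ ‖b θ‖ₑ ^ q := by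
  by_cases h : ∃ k ∈ s, lev b k θ ≠ 0
  · obtain ⟨k, hk, h1⟩ := h
    rw [Finset.sum_eq_single_of_mem k hk]
    · apply ENNReal.rpow_le_rpow _ hq.le
      unfold lev
      split_ifs
      · exact le_rfl
      · simp
    · intro j _ hj
      rw [lev_disj b θ k h1 j hj, enorm_zero, ENNReal.zero_rpow_of_pos hq]
  · push Not at h
    rw [Finset.sum_eq_zero]
    · exact zero_le
    · intro k hk
      rw [h k hk, enorm_zero, ENNReal.zero_rpow_of_pos hq]

lemma trc_eq (b : ℝ → ℂ) (θ : ℝ) : ∀ᶠ n : ℕ in atTop, trc b (Finset.Ico (-(n : ℤ)) n) θ = b θ := by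
  by_cases h0 : b θ = 0
  · refine Filter.Eventually.of_forall fun n => ?_
    unfold trc
    rw [h0]
    apply Finset.sum_eq_zero
    intro k _
    unfold lev
    split_ifs
    · exact h0
    · rfl
  · have hn : 0 < ‖b θ‖ := norm_pos_iff.2 h0
    obtain ⟨k, hk⟩ := exists_mem_Ico_zpow (y := (2 : ℝ)) hn (by norm_num)
    have hl : lev b k θ = b θ := by
      unfold lev
      rw [if_pos ⟨hk.1, hk.2⟩]
    filter_upwards [eventually_gt_atTop k.natAbs] with n hn2
    unfold trc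
    rw [Finset.sum_eq_single_of_mem k]
    · exact hl
    · rw [Finset.mem_Ico]
      omega
    · intro j _ hj
      exact lev_disj b θ k (by rw [hl]; exact h0) j hj

lemma trc_norm (b : ℝ → ℂ) (s : Finset ℤ) (θ : ℝ) : trc b s θ = b θ ∨ trc b s θ = 0 := by
  by_cases h : ∃ k ∈ s, lev b k θ ≠ 0
  · obtain ⟨k, hk, h1⟩ := h
    left
    unfold trc
    rw [Finset.sum_eq_single_of_mem k hk (fun j _ hj => lev_disj b θ k h1 j hj)]
    unfold lev at h1 ⊢
    split_ifs at h1 ⊢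
    · rfl
    · exact absurd rfl h1
  · push Not at h
    right
    exact Finset.sum_eq_zero h

end Pool.Agent.Y250.AM
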