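import Mathlib
import Pool.Agent.Y250.AM.E3
set_option autoImplicit false

/-! Strong type bounds for angular functions in `L^q`. -/

namespace Pool.Agent.Y250.AM

open MeasureTheory Set Complex Filter Topology
open scoped ENNReal NNReal ContDiff
open Pool.Agent.Y250.AN

set_option linter.unusedSectionVars false
variable {mx : ℝ} [hmx : Fact (1 ≤ mx)]

/-- the `q`-th moment of an angular function -/
noncomputable def Iq (q : ℝ) (b : ℝ → ℂ) : ℝ≥0∞ := ∫⁻ θ in Ioo (-Real.pi) Real.pi, ‖b θ‖ₑ ^ q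

lemma N1_pow (q : ℝ) (hq : 1 ≤ q) (b : ℝ → ℂ) (hb : Measurable b) :
    N1 b ^ q ≤ ENNReal.ofReal ((2 * Real.pi) ^ (q - 1)) * Iq q b := by
  have h := jensen (volume.restrict (Ioo (-Real.pi) Real.pi)) (fun _ => 1) (fun θ => ‖b θ‖ₑ) measurable_const
    hb.enorm q hq
  simp only [one_mul, lintegral_one, Measure.restrict_apply_univ, Real.volume_Ioo] at h
  unfold N1 Iq
  refine h.trans (le_of_eq ?_)
  rw [ENNReal.ofReal_rpow_of_nonneg (by linarith [Real.pi_pos]) (by linarith)]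
  congr 3
  ring

lemma N1_top (q : ℝ) (hq : 1 ≤ q) (b : ℝ → ℂ) (hb : Measurable b) (h : Iq q b ≠ ⊤) : N1 b ≠ ⊤ := by
  intro hc
  have h1 := N1_pow q hq b hb
  rw [hc, ENNReal.top_rpow_of_pos (by linarith), top_le_iff] at h1
  exact (ENNReal.mul_ne_top ENNReal.ofReal_ne_top h) h1

lemma Ext_sum {ι : Type*} (s : Finset ι) (f : ι → ℂ → ℂ) (hf : ∀ i, Integrable (f i)) (p : ℂ × ℝ) :
    Ext (fun ξ => ∑ i ∈ s, f i ξ) p = ∑ i ∈ s, Ext (f i) p := by
  unfold AN.Ext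
  rw [← integral_finsetSum s fun i _ => Ext_integrable (f i) (hf i) p]
  simp only [Finset.mul_sum]

/-- the `L^m` functional in time -/
noncomputable def Nm (m : ℝ) (g : ℝ → ℝ≥0∞) : ℝ≥0∞ := (∫⁻ t, g t ^ m) ^ (1 / m)

lemma Nm_mono (m : ℝ) (hm : 0 < m) (g h : ℝ → ℝ≥0∞) (hgh : ∀ t, g t ≤ h t) : Nm m g ≤ Nm m h := by
  unfold Nm
  apply ENNReal.rpow_le_rpow _ (by positivity)
  exact lintegral_mono fun t => ENNReal.rpow_le_rpow (hgh t) hm.le

lemma Nm_add (m : ℝ) (hm : 1 ≤ m) (g h : ℝ → ℝ≥0∞) (hg : Measurable g) (hh : Measurable h) :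
    Nm m (fun t => g t + h t) ≤ Nm m g + Nm m h :=
  ENNReal.lintegral_Lp_add_le hg.aemeasurable hh.aemeasurable hm

lemma Nm_mul (m : ℝ) (hm : 0 < m) (c : ℝ≥0∞) (g : ℝ → ℝ≥0∞) (hg : Measurable g) :
    Nm m (fun t => c * g t) = c * Nm m g := by
  unfold Nm
  have h2 : ∀ t, (c * g t) ^ m = c ^ m * g t ^ m := fun t => ENNReal.mul_rpow_of_nonneg _ _ hm.le
  simp only [h2]
  rw [lintegral_const_mul _ (hg.pow_const m), ENNReal.mul_rpow_of_nonneg _ _ (by positivity),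
    ← ENNReal.rpow_mul, mul_one_div_cancel hm.ne', ENNReal.rpow_one]

lemma Nm_sum (m : ℝ) (hm : 1 ≤ m) {ι : Type*} (S : Finset ι) (g : ι → ℝ → ℝ≥0∞) (hg : ∀ i, Measurable (g i)) :
    Nm m (fun t => ∑ i ∈ S, g i t) ≤ ∑ i ∈ S, Nm m (g i) := by
  classical
  have hm0 : 0 < m := by linarith
  induction S using Finset.induction_on with
  | empty =>
    simp only [Finset.sum_empty]
    unfold Nm
    beta_reduce
    rw [ENNReal.zero_rpow_of_pos hm0, lintegral_zero, ENNReal.zero_rpow_of_pos (by positivity)]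
  | insert a S ha ih =>
    simp only [Finset.sum_insert ha]
    exact (Nm_add m hm _ _ (hg a) (Finset.measurable_sum S fun i _ => hg i)).trans (add_le_add le_rfl ih)

lemma LL_Nm (q : ℝ) (hq : 1 ≤ q) (f : ℂ → ℂ) : Nm mx (LS q f) = LL mx q f ^ q := (LL_pow q hq f).symm

lemma strong_fin (q0 q q1 : ℝ) (h0 : 1 ≤ q0) (h01 : q0 < q) (h12 : q < q1) (k : ℝ → ℂ) (hk : Measurable k)
    (hR : R1 k ≠ ⊤) (C0 C1 : ℝ) (hC0 : 0 ≤ C0) (hC1 : 0 ≤ C1) (hb0 : Bd mx Pp q0 k C0) (hb1 : Bd mx Pp q1 k C1) :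
    ∃ C : ℝ, 0 < C ∧ ∀ (b : ℝ → ℂ), Measurable b → Pp b → ∀ s : Finset ℤ,
      LL mx q (pf (trc b s) k) ^ q ≤ ENNReal.ofReal C * Iq q b := by
  obtain ⟨Cm, hCm, hm⟩ := marc q0 q q1 h0 h01 h12
  have hmx1 : 1 ≤ mx := hmx.out
  have hmx0 : 0 < mx := s_pos
  have hq0 : 0 < q0 := by linarith
  have hq : 0 < q := by linarith
  have hq1 : 0 < q1 := by linarith
  refine ⟨Cm * ((2 * C0) ^ q0 + (2 * C1) ^ q1) + 1, by positivity, ?_⟩
  intro b hb hP s
  have hint : ∀ j, Integrable (pf (lev b j) k) := fun j =>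
    pf_integrable _ k (lev_meas b hb j) _ (lev_norm b j) hk hR
  have hpm : ∀ j, Measurable (pf (lev b j) k) := fun j => pf_meas _ k (lev_meas b hb j) hk
  have hme : ∀ (j : ℤ) (t : ℝ), Measurable fun x : ℂ => AN.Ext (pf (lev b j) k) (x, t) := fun j t =>
    Ext_sec _ (hpm j) t
  -- one exponent
  have one : ∀ (q' C' : ℝ), 0 < q' → 1 ≤ q' → 0 ≤ C' → Bd mx Pp q' k C' → ∀ j : ℤ,
      ENNReal.ofReal ((2 : ℝ) ^ ((j : ℝ) * (q - q'))) * Nm mx (LS q' (pf (lev b j) k)) ≤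
        ENNReal.ofReal ((2 * C') ^ q') * ∫⁻ θ in Ioo (-Real.pi) Real.pi, ‖lev b j θ‖ₑ ^ q := by
    intro q' C' hq' hq'1 hC' hB j
    have h1 := hB (lev b j) (lev_meas b hb j) _ (lev_norm b j) (lev_per b hP j)
    have h2 : Nm mx (LS q' (pf (lev b j) k)) ≤
        ENNReal.ofReal ((C' * (2 : ℝ) ^ (j + 1)) ^ q') * Am (lev b j) := by
      rw [LL_Nm q' hq'1]
      refine (ENNReal.rpow_le_rpow h1 hq'.le).trans (le_of_eq ?_)
      rw [ENNReal.mul_rpow_of_nonneg _ _ hq'.le, ← ENNReal.rpow_mul, one_div_mul_cancel hq'.ne', ENNReal.rpow_one,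
        ENNReal.ofReal_rpow_of_nonneg (by positivity) hq'.le]
    calc _ ≤ ENNReal.ofReal ((2 : ℝ) ^ ((j : ℝ) * (q - q'))) *
          (ENNReal.ofReal ((C' * (2 : ℝ) ^ (j + 1)) ^ q') * Am (lev b j)) := mul_le_mul' le_rfl h2
      _ = ENNReal.ofReal ((2 * C') ^ q') * (ENNReal.ofReal ((2 : ℝ) ^ ((j : ℝ) * q)) * Am (lev b j)) := by
          rw [← mul_assoc, ← mul_assoc, ← ENNReal.ofReal_mul (by positivity), ← ENNReal.ofReal_mul (by positivity)]
          congr 2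
          rw [zpow_add₀ (by norm_num), zpow_one, Real.mul_rpow hC' (by positivity),
            Real.mul_rpow (by positivity) (by norm_num), Real.mul_rpow (by norm_num) hC', ← Real.rpow_intCast,
            ← Real.rpow_mul (by norm_num)]
          have : (2 : ℝ) ^ ((j : ℝ) * q) = (2 : ℝ) ^ ((j : ℝ) * (q - q')) * (2 : ℝ) ^ ((j : ℝ) * q') := by
            rw [← Real.rpow_add (by norm_num)]
            congr 1
            ring
          rw [this]
          ring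
      _ ≤ _ := mul_le_mul' le_rfl (lev_Am b hb q hq j)
  have hpt : ∀ p, ‖AN.Ext (pf (trc b s) k) p‖ₑ ^ q ≤ ENNReal.ofReal Cm * ∑ j ∈ s,
      (ENNReal.ofReal ((2 : ℝ) ^ ((j : ℝ) * (q - q0))) * ‖AN.Ext (pf (lev b j) k) p‖ₑ ^ q0 +
        ENNReal.ofReal ((2 : ℝ) ^ ((j : ℝ) * (q - q1))) * ‖AN.Ext (pf (lev b j) k) p‖ₑ ^ q1) := by
    intro p
    have e : pf (trc b s) k = fun ξ => ∑ j ∈ s, pf (lev b j) k ξ := by
      ext ξ
      unfold pf trc
      rw [Finset.sum_mul]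
    have h1 : ‖AN.Ext (pf (trc b s) k) p‖ ≤ ∑ j ∈ s, ‖AN.Ext (pf (lev b j) k) p‖ := by
      rw [e, Ext_sum s _ hint p]
      exact norm_sum_le _ _
    have h2 := hm s (fun j => ‖AN.Ext (pf (lev b j) k) p‖) (fun j => norm_nonneg _)
    have h3 := (Real.rpow_le_rpow (norm_nonneg _) h1 hq.le).trans h2
    have h4 := ENNReal.ofReal_le_ofReal h3
    rw [← ENNReal.ofReal_rpow_of_nonneg (norm_nonneg _) hq.le, ofReal_norm, ENNReal.ofReal_mul hCm,
      ENNReal.ofReal_sum_of_nonneg (fun j _ => by positivity)] at h4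
    refine h4.trans (le_of_eq ?_)
    congr 1
    apply Finset.sum_congr rfl
    intro j _
    rw [ENNReal.ofReal_add (by positivity) (by positivity), ENNReal.ofReal_mul (by positivity),
      ENNReal.ofReal_mul (by positivity), ← ENNReal.ofReal_rpow_of_nonneg (norm_nonneg _) hq0.le,
      ← ENNReal.ofReal_rpow_of_nonneg (norm_nonneg _) hq1.le, ofReal_norm]
  -- at a fixed time
  have hLS : ∀ t, LS q (pf (trc b s) k) t ≤ ENNReal.ofReal Cm * ∑ j ∈ s,
      (ENNReal.ofReal ((2 : ℝ) ^ ((j : ℝ) * (q - q0))) * LS q0 (pf (lev b j) k) t +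
        ENNReal.ofReal ((2 : ℝ) ^ ((j : ℝ) * (q - q1))) * LS q1 (pf (lev b j) k) t) := by
    intro t
    unfold LS
    refine (lintegral_mono fun x => hpt (x, t)).trans (le_of_eq ?_)
    have hmj : ∀ j : ℤ, Measurable fun x : ℂ => (ENNReal.ofReal ((2 : ℝ) ^ ((j : ℝ) * (q - q0))) *
        ‖AN.Ext (pf (lev b j) k) (x, t)‖ₑ ^ q0 + ENNReal.ofReal ((2 : ℝ) ^ ((j : ℝ) * (q - q1))) *
        ‖AN.Ext (pf (lev b j) k) (x, t)‖ₑ ^ q1) := fun j =>
      (((hme j t).enorm.pow_const q0).const_mul _).add (((hme j t).enorm.pow_const q1).const_mul _)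
    rw [lintegral_const_mul' _ _ ENNReal.ofReal_ne_top, lintegral_finsetSum s fun j _ => hmj j]
    congr 1
    apply Finset.sum_congr rfl
    intro j _
    rw [lintegral_add_left (((hme j t).enorm.pow_const q0).const_mul _),
      lintegral_const_mul' _ _ ENNReal.ofReal_ne_top, lintegral_const_mul' _ _ ENNReal.ofReal_ne_top]
  have hm0 : ∀ j : ℤ, Measurable (LS q0 (pf (lev b j) k)) := fun j => LS_meas q0 _ (hpm j)
  have hm1 : ∀ j : ℤ, Measurable (LS q1 (pf (lev b j) k)) := fun j => LS_meas q1 _ (hpm j)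
  have hmsum : ∀ j : ℤ, Measurable fun t => (ENNReal.ofReal ((2 : ℝ) ^ ((j : ℝ) * (q - q0))) *
      LS q0 (pf (lev b j) k) t + ENNReal.ofReal ((2 : ℝ) ^ ((j : ℝ) * (q - q1))) *
      LS q1 (pf (lev b j) k) t) := fun j => ((hm0 j).const_mul _).add ((hm1 j).const_mul _)
  rw [← LL_Nm q (by linarith)]
  refine (Nm_mono mx hmx0 _ _ hLS).trans ?_
  rw [Nm_mul mx hmx0 _ _ (Finset.measurable_sum s fun j _ => hmsum j)]
  have h5 : ∀ j ∈ s, Nm mx (fun t => (ENNReal.ofReal ((2 : ℝ) ^ ((j : ℝ) * (q - q0))) *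
      LS q0 (pf (lev b j) k) t + ENNReal.ofReal ((2 : ℝ) ^ ((j : ℝ) * (q - q1))) *
      LS q1 (pf (lev b j) k) t)) ≤
      ENNReal.ofReal ((2 * C0) ^ q0 + (2 * C1) ^ q1) * ∫⁻ θ in Ioo (-Real.pi) Real.pi, ‖lev b j θ‖ₑ ^ q := by
    intro j _
    refine (Nm_add mx hmx1 _ _ ((hm0 j).const_mul _) ((hm1 j).const_mul _)).trans ?_
    rw [Nm_mul mx hmx0 _ _ (hm0 j), Nm_mul mx hmx0 _ _ (hm1 j),
      ENNReal.ofReal_add (by positivity) (by positivity), add_mul]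
    exact add_le_add (one q0 C0 hq0 h0 hC0 hb0 j) (one q1 C1 hq1 (by linarith) hC1 hb1 j)
  calc _ ≤ ENNReal.ofReal Cm * ∑ j ∈ s, ENNReal.ofReal ((2 * C0) ^ q0 + (2 * C1) ^ q1) *
          ∫⁻ θ in Ioo (-Real.pi) Real.pi, ‖lev b j θ‖ₑ ^ q :=
        mul_le_mul' le_rfl ((Nm_sum mx hmx1 s _ hmsum).trans (Finset.sum_le_sum h5))
    _ = ENNReal.ofReal (Cm * ((2 * C0) ^ q0 + (2 * C1) ^ q1)) *
          ∫⁻ θ in Ioo (-Real.pi) Real.pi, ∑ j ∈ s, ‖lev b j θ‖ₑ ^ q := by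
        rw [lintegral_finsetSum s fun j _ => ((lev_meas b hb j).enorm.pow_const q), ← Finset.mul_sum,
          ENNReal.ofReal_mul hCm, mul_assoc]
    _ ≤ _ := by
        apply mul_le_mul'
        · exact ENNReal.ofReal_le_ofReal (by linarith)
        · exact lintegral_mono fun θ => lev_sum_le b q hq s θ

theorem strong (q0 q q1 : ℝ) (h0 : 1 ≤ q0) (h01 : q0 < q) (h12 : q < q1) (k : ℝ → ℂ) (hk : Measurable k)
    (hR : R1 k ≠ ⊤) (C0 C1 : ℝ) (hC0 : 0 ≤ C0) (hC1 : 0 ≤ C1) (hb0 : Bd mx Pp q0 k C0) (hb1 : Bd mx Pp q1 k C1) :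
    ∃ C : ℝ, 0 < C ∧ ∀ (b : ℝ → ℂ), Measurable b → Pp b → Iq q b ≠ ⊤ →
      LL mx q (pf b k) ≤ ENNReal.ofReal C * Iq q b ^ (1 / q) := by
  have hq : 0 < q := by linarith
  have hq1 : 1 ≤ q := by linarith
  obtain ⟨C, hC, h⟩ := strong_fin q0 q q1 h0 h01 h12 k hk hR C0 C1 hC0 hC1 hb0 hb1
  refine ⟨C ^ (1 / q), by positivity, ?_⟩
  intro b hb hP hI
  have hN := N1_top q hq1 b hb hI
  have hint : Integrable (pf b k) := by
    refine ⟨(pf_meas b k hb hk).aestronglyMeasurable, ?_⟩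
    rw [hasFiniteIntegral_iff_enorm, pf_L1 b k hb hk]
    exact ENNReal.mul_lt_top hN.lt_top hR.lt_top
  set tn : ℕ → ℝ → ℂ := fun n => trc b (Finset.Ico (-(n : ℤ)) n) with htn
  have htm : ∀ n, Measurable (tn n) := fun n => Finset.measurable_sum _ fun i _ => lev_meas b hb i
  have htN : ∀ n, N1 (tn n) ≤ N1 b := by
    intro n
    apply lintegral_mono
    intro θ
    rcases trc_norm b (Finset.Ico (-(n : ℤ)) n) θ with h1 | h1
    · simp only [htn]
      rw [h1]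
    · simp only [htn]
      rw [h1, enorm_zero]
      exact zero_le
  have htint : ∀ n, Integrable (pf (tn n) k) := by
    intro n
    refine ⟨(pf_meas _ k (htm n) hk).aestronglyMeasurable, ?_⟩
    rw [hasFiniteIntegral_iff_enorm, pf_L1 _ k (htm n) hk]
    exact ENNReal.mul_lt_top ((htN n).trans_lt hN.lt_top) hR.lt_top
  have hconv : Tendsto (fun n => N1 (fun θ => tn n θ - b θ)) atTop (𝓝 0) := by
    unfold N1
    have h1 := tendsto_lintegral_of_dominated_convergence (μ := volume.restrict (Ioo (-Real.pi) Real.pi))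
      (F := fun n θ => ‖tn n θ - b θ‖ₑ) (f := fun _ => 0) (fun θ => ‖b θ‖ₑ)
      (fun n => ((htm n).sub hb).enorm) (fun n => Filter.Eventually.of_forall fun θ => by
        rcases trc_norm b (Finset.Ico (-(n : ℤ)) n) θ with h1 | h1
        · simp only [htn]
          rw [h1]
          simp
        · simp only [htn]
          rw [h1]
          simp) hN (Filter.Eventually.of_forall fun θ => by
        apply tendsto_const_nhds.congr'
        filter_upwards [trc_eq b θ] with n hn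
        simp only [htn]
        rw [hn]
        simp)
    simpa using h1
  refine LL_lim q hq1 (pf b k) (fun n => pf (tn n) k) hint htint (fun n => pf_meas _ k (htm n) hk) ?_ _ ?_
  · have e : ∀ n, ∫⁻ ξ, ‖pf (tn n) k ξ - pf b k ξ‖ₑ = N1 (fun θ => tn n θ - b θ) * R1 k := by
      intro n
      rw [← pf_L1 (fun θ => tn n θ - b θ) k ((htm n).sub hb) hk]
      apply lintegral_congr
      intro ξ
      congr 1
      unfold pf
      ring
    simp only [e]
    have h2 := ENNReal.Tendsto.mul_const hconv (b := R1 k) (Or.inr hR)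
    rwa [zero_mul] at h2
  · intro n
    have h1 := ENNReal.rpow_le_rpow (h b hb hP (Finset.Ico (-(n : ℤ)) n)) (z := 1 / q) (by positivity)
    rw [← ENNReal.rpow_mul, mul_one_div_cancel hq.ne', ENNReal.rpow_one, ENNReal.mul_rpow_of_nonneg _ _ (by positivity),
      ENNReal.ofReal_rpow_of_pos hC] at h1
    exact h1

theorem ang (q : ℝ) (hq : 2 + 1 / mx < q) : ∃ C : ℝ, 0 < C ∧ ∀ (b : ℝ → ℂ), Measurable b → Pp b → Iq q b ≠ ⊤ →
    LL mx q (pf b dk) ≤ ENNReal.ofReal C * Iq q b ^ (1 / q) := by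
  have hmi : (0 : ℝ) < 1 / mx := mxi
  obtain ⟨C0, hC0, h0⟩ := Bd_dk (mx := mx) ((2 + 1 / mx + q) / 2) (by linarith)
  obtain ⟨C1, hC1, h1⟩ := Bd_dk (mx := mx) (q + 1) (by linarith)
  exact strong ((2 + 1 / mx + q) / 2) q (q + 1) (by linarith) (by linarith) (by linarith) dk dk_meas R1_dk C0 C1 hC0 hC1 h0 h1

/-- discs of radius `ρ` -/
theorem ang_rad (q : ℝ) (hq : 2 + 1 / mx < q) : ∃ C : ℝ, 0 < C ∧ ∀ (b : ℝ → ℂ), Measurable b → Pp b → Iq q b ≠ ⊤ →
    ∀ ρ : ℝ, 0 < ρ → LL mx q (pf b (fun r => dk (ρ⁻¹ * r))) ≤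
      ENNReal.ofReal (C * ρ ^ (ax mx q)) * Iq q b ^ (1 / q) := by
  have hmi : (0 : ℝ) < 1 / mx := mxi
  obtain ⟨C, hC, h⟩ := ang q hq
  refine ⟨C, hC, ?_⟩
  intro b hb hP hI ρ hρ
  have e : pf b (fun r => dk (ρ⁻¹ * r)) = fun ξ => pf b dk (ρ⁻¹ • ξ) := by
    ext ξ
    exact pf_dil b dk ρ hρ ξ
  rw [e, LL_dil q (by linarith) ρ hρ _ (pf_meas b dk hb dk_meas)]
  refine (mul_le_mul_right (h b hb hP hI) _).trans (le_of_eq ?_)
  rw [← mul_assoc, ← ENNReal.ofReal_mul (by positivity)]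
  congr 2
  ring

end Pool.Agent.Y250.AM
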