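import Mathlib
import Pool.Agent.Y250.AM.E6
set_option autoImplicit false

/-! Arbitrary centres and real coordinates. -/

namespace Pool.Agent.Y250.AM

open MeasureTheory Set Complex Filter Topology
open scoped ENNReal NNReal ContDiff
open Pool.Agent.Y250.AN

set_option linter.unusedSectionVars false
variable {mx : ℝ} [hmx : Fact (1 ≤ mx)]

lemma nsq (z : ℂ) : ‖z‖ ^ 2 = z.re ^ 2 + z.im ^ 2 := by
  rw [← Complex.normSq_eq_norm_sq, Complex.normSq_apply]
  ring

lemma Ext_shift (g : ℂ → ℂ) (c x : ℂ) (t : ℝ) :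
    ‖Ext (fun ξ => g (ξ - c)) (x, t)‖ₑ = ‖Ext g (x + (2 * t : ℝ) • c, t)‖ₑ := by
  have e : Ext (fun ξ => g (ξ - c)) (x, t) = ee (-(dt x c + t * ‖c‖ ^ 2)) * Ext g (x + (2 * t : ℝ) • c, t) := by
    unfold AN.Ext
    rw [← integral_const_mul]
    have h := integral_sub_right_eq_self (μ := (volume : Measure ℂ))
      (fun η => ee (-(dt x (η + c) + t * ‖η + c‖ ^ 2)) * g η) c
    simp only [sub_add_cancel] at h
    rw [h]
    apply integral_congr_ae
    refine Filter.Eventually.of_forall fun η => ?_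
    simp only
    rw [← mul_assoc, ← ee_add]
    congr 2
    rw [nsq, nsq, nsq]
    unfold dt
    simp only [Complex.add_re, Complex.add_im, Complex.smul_re, Complex.smul_im, smul_eq_mul]
    ring
  rw [e, enorm_mul]
  have : ‖ee (-(dt x c + t * ‖c‖ ^ 2))‖ₑ = 1 := by
    rw [← ofReal_norm, norm_ee, ENNReal.ofReal_one]
  rw [this, one_mul]

lemma LL_shift (q : ℝ) (g : ℂ → ℂ) (c : ℂ) : LL mx q (fun ξ => g (ξ - c)) = LL mx q g := by
  have h : ∀ t, LS q (fun ξ => g (ξ - c)) t = LS q g t := by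
    intro t
    unfold LS
    simp only [Ext_shift]
    exact lintegral_add_right_eq_self (μ := (volume : Measure ℂ)) (fun x => ‖AN.Ext g (x, t)‖ₑ ^ q) _
  unfold LL
  simp only [h]

/-- real coordinates -/
def tc (z : ℂ) : ℝ × ℝ := (z.re, z.im)

lemma tc_mp : MeasurePreserving tc volume volume := Complex.volume_preserving_equiv_real_prod

lemma tc_emb : MeasurableEmbedding tc := Complex.measurableEquivRealProd.measurableEmbedding

/-- points on circles -/
noncomputable def cir (c : ℝ × ℝ) (r θ : ℝ) : ℝ × ℝ := (c.1 + r * Real.cos θ, c.2 + r * Real.sin θ)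

lemma cir_eq (c : ℝ × ℝ) (r θ : ℝ) : tc ((r : ℂ) * ee θ + ((c.1 : ℂ) + (c.2 : ℂ) * I)) = cir c r θ := by
  unfold tc cir
  have h1 : ((r : ℂ) * ee θ).re = r * Real.cos θ := by
    rw [Complex.re_ofReal_mul, ee_re]
  have h2 : ((r : ℂ) * ee θ).im = r * Real.sin θ := by
    rw [Complex.im_ofReal_mul, ee_im]
  simp only [Complex.add_re, Complex.add_im, h1, h2]
  simp
  constructor <;> ring

lemma Iq_eq (q : ℝ) (hq : 0 < q) (b : ℝ → ℂ) :
    Iq q b ^ (1 / q) = eLpNorm b (ENNReal.ofReal q) (volume.restrict (Ioo (-Real.pi) Real.pi)) := by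
  rw [eLpNorm_eq_lintegral_rpow_enorm_toReal (by simpa using hq) ENNReal.ofReal_ne_top, ENNReal.toReal_ofReal hq.le]
  rfl

end Pool.Agent.Y250.AM
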