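import Mathlib
import Pool.Agent.Y250.AM.E7
set_option autoImplicit false

/-! Products of an arbitrary angular function and a decreasing radial function. -/

namespace Pool.Agent.Y250.AM

open MeasureTheory Set Complex Filter Topology
open scoped ENNReal NNReal ContDiff
open Pool.Agent.Y250.AN

set_option linter.unusedSectionVars false
variable {mx : ℝ} [hmx : Fact (1 ≤ mx)]

/-- the radial moment -/
noncomputable def Jq (q : ℝ) (k : ℝ → ℝ) : ℝ≥0∞ := ∫⁻ r in Ioi (0 : ℝ), ENNReal.ofReal r * ENNReal.ofReal (k r) ^ q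

lemma k_dec (q : ℝ) (hq : 0 < q) (k : ℝ → ℝ) (hk : AntitoneOn k (Ioi 0)) (hk0 : ∀ r, 0 < r → 0 ≤ k r)
    (hJ : Jq q k ≠ ⊤) (r : ℝ) (hr : 0 < r) : k r ≤ (2 * (Jq q k).toReal) ^ (1 / q) * r ^ (-(2 / q)) := by
  have h1 : ENNReal.ofReal (k r ^ q * (r ^ 2 / 2)) ≤ Jq q k := by
    have e1 : ∫⁻ ρ in Ioo 0 r, ENNReal.ofReal ρ = ENNReal.ofReal (r ^ 2 / 2) := by
      rw [← ofReal_integral_eq_lintegral_ofReal]
      · congr 1
        rw [← integral_Ioc_eq_integral_Ioo, ← intervalIntegral.integral_of_le hr.le, integral_id]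
        ring
      · exact (continuous_id.integrableOn_Icc (a := 0) (b := r)).mono_set Ioo_subset_Icc_self
      · filter_upwards [ae_restrict_mem measurableSet_Ioo] with ρ hρ using hρ.1.le
    calc ENNReal.ofReal (k r ^ q * (r ^ 2 / 2)) = ENNReal.ofReal (k r ^ q) * ∫⁻ ρ in Ioo 0 r, ENNReal.ofReal ρ := by
          rw [e1, ENNReal.ofReal_mul (Real.rpow_nonneg (hk0 r hr) _)]
      _ = ∫⁻ ρ in Ioo 0 r, ENNReal.ofReal (k r ^ q) * ENNReal.ofReal ρ := by
          rw [lintegral_const_mul' _ _ ENNReal.ofReal_ne_top]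
      _ ≤ ∫⁻ ρ in Ioo 0 r, ENNReal.ofReal ρ * ENNReal.ofReal (k ρ) ^ q := by
          apply setLIntegral_mono' measurableSet_Ioo
          intro ρ hρ
          rw [mul_comm, ← ENNReal.ofReal_rpow_of_nonneg (hk0 r hr) hq.le]
          apply mul_le_mul_right
          apply ENNReal.rpow_le_rpow _ hq.le
          exact ENNReal.ofReal_le_ofReal (hk hρ.1 hr hρ.2.le)
      _ ≤ _ := lintegral_mono_set fun x hx => hx.1
  have h2 : k r ^ q * (r ^ 2 / 2) ≤ (Jq q k).toReal := by
    rw [← ENNReal.ofReal_toReal hJ] at h1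
    exact (ENNReal.ofReal_le_ofReal_iff ENNReal.toReal_nonneg).1 h1
  have hr2 : 0 < r ^ (2 : ℝ) := by positivity
  have h3 : k r ^ q ≤ (2 * (Jq q k).toReal) * (r ^ (2 : ℝ))⁻¹ := by
    rw [← div_eq_mul_inv, le_div_iff₀ hr2, Real.rpow_two]
    linarith
  have hJ0 : 0 ≤ (Jq q k).toReal := ENNReal.toReal_nonneg
  calc k r = (k r ^ q) ^ (1 / q) := by
        rw [← Real.rpow_mul (hk0 r hr), mul_one_div_cancel hq.ne', Real.rpow_one]
    _ ≤ ((2 * (Jq q k).toReal) * (r ^ (2 : ℝ))⁻¹) ^ (1 / q) :=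
        Real.rpow_le_rpow (Real.rpow_nonneg (hk0 r hr) _) h3 (by positivity)
    _ = _ := by
        rw [Real.mul_rpow (by positivity) (by positivity), ← Real.rpow_neg hr.le, ← Real.rpow_mul hr.le]
        congr 2
        ring

/-- measurable version of a monotone radial function -/
lemma k_meas (k : ℝ → ℝ) (hk : AntitoneOn k (Ioi 0)) (hk0 : ∀ r, 0 < r → 0 ≤ k r) :
    Measurable fun r => if 0 < r then k r else 0 := by
  set K : ℝ → ℝ := fun r => if 0 < r then (1 + k r)⁻¹ else 0 with hK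
  have hKm : Monotone K := by
    intro r s hrs
    simp only [hK]
    split_ifs with h1 h2 h2
    · have a1 := hk0 r h1
      have a2 := hk0 s h2
      have a3 := hk h1 h2 hrs
      gcongr
    · exact absurd (h1.trans_le hrs) h2
    · have a2 := hk0 s h2
      positivity
    · exact le_rfl
  have e : (fun r => if 0 < r then k r else 0) = fun r => if 0 < r then (K r)⁻¹ - 1 else 0 := by
    ext r
    simp only [hK]
    split_ifs with h
    · rw [inv_inv]
      ring
    · rfl
  rw [e]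
  refine Measurable.ite measurableSet_Ioi ?_ measurable_const
  exact hKm.measurable.inv.sub_const 1

/-- the potential -/
noncomputable def Wk (a : ℝ) (k : ℝ → ℝ) (r : ℝ) : ℝ := -(r ^ a * k r) + a * ∫ ρ in (0 : ℝ)..r, ρ ^ (a - 1) * k ρ

end Pool.Agent.Y250.AM
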