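import Mathlib
import Pool.Agent.Y250.AM.E8
set_option autoImplicit false

/-! The theorem with a decreasing majorant of the variation. -/

namespace Pool.Agent.Y250.AM

open MeasureTheory Set Complex Filter Topology
open scoped ENNReal NNReal ContDiff
open Pool.Agent.Y250.AN

set_option linter.unusedSectionVars false
variable {mx : ℝ} [hmx : Fact (1 ≤ mx)]

lemma Wk_prop' (q : ℝ) (hq : 2 + 1 / mx < q) (S : ℝ) (hS : 0 < S) (k : ℝ → ℝ) (hk : AntitoneOn k (Ioi 0)) (hk0 : ∀ r, 0 < r → 0 ≤ k r)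
    (hJ : Jq q k ≠ ⊤) :
    ∀ r s, 0 < r → r ≤ s → s ≤ S →
      (r ^ (ax mx q) * (k r - k s) ≤ Wk (ax mx q) k s - Wk (ax mx q) k r) ∧
      Wk (ax mx q) k s - Wk (ax mx q) k r ≤
        (2 * (Jq q k).toReal) ^ (1 / q) * (S ^ (ax mx q - 2 / q) + (ax mx q) * (S ^ (ax mx q - 2 / q) / (ax mx q - 2 / q))) := by
  have hmi : (0 : ℝ) < 1 / mx := mxi
  intro r s hr hrs hs2
  have hq0 : 0 < q := by linarith
  set a : ℝ := ax mx q with ha
  set e : ℝ := ax mx q - 2 / q with he
  have he0 : 0 < e := ax_pos2 q hq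
  have hae : a = e + 2 / q := by rw [ha, he]; ring
  have ha0 : 0 < a := by rw [hae]; positivity
  set A : ℝ := (2 * (Jq q k).toReal) ^ (1 / q) with hA
  have hA0 : 0 ≤ A := by positivity
  have hs : 0 < s := hr.trans_le hrs
  have hkd : ∀ ρ, 0 < ρ → k ρ ≤ A * ρ ^ (-(2 / q)) := fun ρ hρ => k_dec q hq0 k hk hk0 hJ ρ hρ
  have hpt : ∀ ρ, 0 < ρ → ρ ^ (a - 1) * k ρ ≤ A * ρ ^ (e - 1) := by
    intro ρ hρ
    calc ρ ^ (a - 1) * k ρ ≤ ρ ^ (a - 1) * (A * ρ ^ (-(2 / q))) :=
          mul_le_mul_of_nonneg_left (hkd ρ hρ) (by positivity)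
      _ = A * (ρ ^ (a - 1) * ρ ^ (-(2 / q))) := by ring
      _ = _ := by rw [← Real.rpow_add hρ, hae]; congr 2; ring
  have hint0 : ∀ x, 0 < x → IntervalIntegrable (fun ρ => ρ ^ (a - 1) * k ρ) volume 0 x := by
    intro x hx
    have h1 : IntervalIntegrable (fun ρ : ℝ => A * ρ ^ (e - 1)) volume 0 x :=
      (intervalIntegral.intervalIntegrable_rpow' (by linarith)).const_mul A
    rw [intervalIntegrable_iff_integrableOn_Ioc_of_le hx.le] at h1 ⊢
    refine Integrable.mono' h1 ?_ ?_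
    · have hm := k_meas k hk hk0
      have h2 : Measurable fun ρ : ℝ => ρ ^ (a - 1) * (if 0 < ρ then k ρ else 0) := by
        have : Measurable fun ρ : ℝ => ρ ^ (a - 1) := by fun_prop
        exact this.mul hm
      refine h2.aestronglyMeasurable.congr ?_
      filter_upwards [ae_restrict_mem measurableSet_Ioc] with ρ hρ
      rw [if_pos hρ.1]
    · filter_upwards [ae_restrict_mem measurableSet_Ioc] with ρ hρ
      have := hk0 ρ hρ.1
      have h3 : 0 ≤ ρ ^ (a - 1) := Real.rpow_nonneg hρ.1.le _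
      rw [Real.norm_eq_abs, abs_of_nonneg (by positivity)]
      exact hpt ρ hρ.1
  have hdiff : (∫ ρ in (0 : ℝ)..s, ρ ^ (a - 1) * k ρ) - (∫ ρ in (0 : ℝ)..r, ρ ^ (a - 1) * k ρ) =
      ∫ ρ in r..s, ρ ^ (a - 1) * k ρ :=
    intervalIntegral.integral_interval_sub_left (hint0 s hs) (hint0 r hr)
  have hirs : IntervalIntegrable (fun ρ => ρ ^ (a - 1) * k ρ) volume r s :=
    (hint0 r hr).symm.trans (hint0 s hs)
  have hirp : ∀ p : ℝ, IntervalIntegrable (fun ρ : ℝ => ρ ^ p) volume r s := by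
    intro p
    apply intervalIntegral.intervalIntegrable_rpow
    right
    rw [uIcc_of_le hrs]
    intro h
    linarith [h.1]
  have hW : Wk a k s - Wk a k r = r ^ a * k r - s ^ a * k s + a * ∫ ρ in r..s, ρ ^ (a - 1) * k ρ := by
    unfold Wk
    rw [← hdiff]
    ring
  have low : k s * ((s ^ a - r ^ a) / a) ≤ ∫ ρ in r..s, ρ ^ (a - 1) * k ρ := by
    have h1 : ∫ ρ in r..s, ρ ^ (a - 1) * k s = k s * ((s ^ a - r ^ a) / a) := by
      rw [intervalIntegral.integral_mul_const, integral_rpow (Or.inl (by linarith)), sub_add_cancel]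
      ring
    rw [← h1]
    apply intervalIntegral.integral_mono_on hrs ((hirp _).mul_const _) hirs
    intro ρ hρ
    have hρ0 : 0 < ρ := hr.trans_le hρ.1
    exact mul_le_mul_of_nonneg_left (hk hρ0 hs hρ.2) (by positivity)
  have up : ∫ ρ in r..s, ρ ^ (a - 1) * k ρ ≤ A * (S ^ e / e) := by
    have h1 : ∫ ρ in r..s, A * ρ ^ (e - 1) = A * ((s ^ e - r ^ e) / e) := by
      rw [intervalIntegral.integral_const_mul, integral_rpow (Or.inl (by linarith)), sub_add_cancel]
    calc ∫ ρ in r..s, ρ ^ (a - 1) * k ρ ≤ ∫ ρ in r..s, A * ρ ^ (e - 1) := by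
          apply intervalIntegral.integral_mono_on hrs hirs ((hirp _).const_mul _)
          intro ρ hρ
          exact hpt ρ (hr.trans_le hρ.1)
      _ = A * ((s ^ e - r ^ e) / e) := h1
      _ ≤ _ := by
          have h2 : s ^ e ≤ S ^ e := Real.rpow_le_rpow hs.le hs2 he0.le
          have h3 : 0 ≤ r ^ e := by positivity
          gcongr
          linarith
  have hks := hk0 s hs
  have hkr := hk0 r hr
  have hsa : 0 < s ^ a := by positivity
  rw [hW]
  constructor
  · have h1 : k s * (s ^ a - r ^ a) ≤ a * ∫ ρ in r..s, ρ ^ (a - 1) * k ρ := by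
      have := mul_le_mul_of_nonneg_left low ha0.le
      calc k s * (s ^ a - r ^ a) = a * (k s * ((s ^ a - r ^ a) / a)) := by field_simp
        _ ≤ _ := this
    nlinarith
  · have h1 : r ^ a * k r ≤ A * S ^ e := by
      calc r ^ a * k r ≤ r ^ a * (A * r ^ (-(2 / q))) := mul_le_mul_of_nonneg_left (hkd r hr) (by positivity)
        _ = A * (r ^ a * r ^ (-(2 / q))) := by ring
        _ = A * r ^ e := by rw [← Real.rpow_add hr, hae]; congr 2; ring
        _ ≤ _ := by
            have : r ^ e ≤ S ^ e := Real.rpow_le_rpow hr.le (hrs.trans hs2) he0.le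
            gcongr
    have h2 : 0 ≤ s ^ a * k s := by positivity
    have h3 := mul_le_mul_of_nonneg_left up ha0.le
    calc _ ≤ A * S ^ e + a * (A * (S ^ e / e)) := by linarith
      _ = _ := by ring



lemma majLL (q : ℝ) (hq : 2 + 1 / mx < q) (R : ℝ) (hR : 0 < R) : ∃ C : ℝ, 0 < C ∧ ∀ (g : ℂ → ℂ), Measurable g →
    (∀ ξ, R ≤ ‖ξ‖ → g ξ = 0) → ∀ k : ℝ → ℝ, AntitoneOn k (Ioi 0) → (∀ r, 0 < r → 0 ≤ k r) → (∀ r, R ≤ r → k r = 0) →
    (∀ r s, 0 < r → r ≤ s → Iq q (fun θ => ci g s θ - ci g r θ) ^ (1 / q) ≤ ENNReal.ofReal (k r - k s)) →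
    LL mx q g ≤ ENNReal.ofReal C * Jq q k ^ (1 / q) := by
  have hmi : (0 : ℝ) < 1 / mx := mxi
  obtain ⟨C, hC, h⟩ := wbv q hq
  have hq0 : 0 < q := by linarith
  set K0 : ℝ := R ^ (ax mx q - 2 / q) + (ax mx q) * (R ^ (ax mx q - 2 / q) / (ax mx q - 2 / q)) with hK0
  have he0 : 0 < ax mx q - 2 / q := ax_pos2 q hq
  have ha0 : 0 < ax mx q := ax_pos q hq
  have hK : 0 < K0 := by positivity
  refine ⟨C * K0 * 2 ^ (1 / q), by positivity, ?_⟩
  intro g hg hgR k hk hk0 hk1 hv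
  rcases eq_or_ne (Jq q k) ⊤ with hJ | hJ
  · rw [hJ, ENNReal.top_rpow_of_pos (by positivity), ENNReal.mul_top]
    · exact le_top
    · rw [ne_eq, ENNReal.ofReal_eq_zero, not_le]
      positivity
  set a : ℝ := ax mx q with ha
  set A : ℝ := (2 * (Jq q k).toReal) ^ (1 / q) with hA
  have hm2 : ∀ r : ℝ, 0 < r → 0 < min r R := fun r hr => lt_min hr hR
  have hk2 : ∀ r, 0 < r → k (min r R) = k r := by
    intro r hr
    rcases le_total r R with h2 | h2
    · rw [min_eq_left h2]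
    · rw [min_eq_right h2, hk1 R le_rfl, hk1 r h2]
  have hWBV : WBV mx q g (fun r => Wk a k (min r R)) (A * K0) := by
    have hp : ∀ r s, 0 < r → r ≤ s → ((min r R) ^ a * (k r - k s) ≤ Wk a k (min s R) - Wk a k (min r R)) ∧
        Wk a k (min s R) - Wk a k (min r R) ≤ A * K0 := by
      intro r s hr hs
      have := Wk_prop' q hq R hR k hk hk0 hJ (min r R) (min s R) (hm2 r hr) (min_le_min_right R hs) (min_le_right _ _)
      rw [hk2 r hr, hk2 s (hr.trans_le hs)] at this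
      exact this
    refine ⟨hg, ?_, ?_, ?_⟩
    · intro r hr s hs hrs
      have h1 := (hp r s hr hrs).1
      have h2 : 0 ≤ k r - k s := sub_nonneg.2 (hk hr hs hrs)
      have h3 : 0 < (min r R) ^ a := Real.rpow_pos_of_pos (hm2 r hr) _
      simp only
      nlinarith
    · intro r s hr hs
      exact (hp r s hr hs).2
    · intro r s hr hs
      have hs0 : 0 < s := hr.trans_le hs
      have h2 : 0 ≤ k r - k s := sub_nonneg.2 (hk hr hs0 hs)
      refine (mul_le_mul_right (hv r s hr hs) _).trans ?_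
      rw [← ENNReal.ofReal_mul (by positivity)]
      apply ENNReal.ofReal_le_ofReal
      have h3 : r ^ a * (k r - k s) ≤ (min r R) ^ a * (k r - k s) := by
        rcases le_total r R with h4 | h4
        · rw [min_eq_left h4]
        · rw [hk1 r h4, hk1 s (h4.trans hs)]
          simp
      exact h3.trans (hp r s hr hs).1
  refine (h _ _ _ hWBV R hR hgR).trans (le_of_eq ?_)
  have eJ : Jq q k ^ (1 / q) = ENNReal.ofReal ((Jq q k).toReal ^ (1 / q)) := by
    rw [← ENNReal.ofReal_rpow_of_nonneg ENNReal.toReal_nonneg (by positivity), ENNReal.ofReal_toReal hJ]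
  rw [eJ, ← ENNReal.ofReal_mul (by positivity)]
  congr 1
  rw [hA, Real.mul_rpow (by norm_num) ENNReal.toReal_nonneg]
  ring

theorem blk (q : ℝ) (hq : 2 + 1 / mx < q) (D : ℝ) (hD : 0 ≤ D) : ∃ C : ℝ, 0 < C ∧
    ∀ f : ℝ × ℝ → ℂ, Measurable f → (∀ x : ℝ × ℝ, 2 < x.1 ^ 2 + x.2 ^ 2 → f x = 0) →
    ∀ (c : ℝ × ℝ), c.1 ^ 2 + c.2 ^ 2 ≤ D ^ 2 → ∀ κ : ℝ → ℝ,
    AntitoneOn κ (Ioi 0) → (∀ r, 0 < r → 0 ≤ κ r) →
    (∀ r s, 0 < r → r ≤ s →
      eLpNorm (fun θ => f (cir c s θ) - f (cir c r θ)) (ENNReal.ofReal q)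
        (volume.restrict (Ioo (-Real.pi) Real.pi)) ≤ ENNReal.ofReal (κ r - κ s)) →
    LL mx q (fun z => f (tc z)) ≤ ENNReal.ofReal C * Jq q κ ^ (1 / q) := by
  have hmi : (0 : ℝ) < 1 / mx := mxi
  obtain ⟨C, hC, h⟩ := majLL (mx := mx) q hq (D + 2) (by linarith)
  refine ⟨C, hC, ?_⟩
  intro f hfm hf c hc κ hκ hκ0 hv
  have hq0 : 0 < q := by linarith
  set z0 : ℂ := (c.1 : ℂ) + (c.2 : ℂ) * I with hz0
  set g : ℂ → ℂ := fun z => f (tc (z + z0)) with hg
  have hgm : Measurable g := hfm.comp (tc_mp.measurable.comp (measurable_id.add_const z0))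
  have e1 : (fun z => f (tc z)) = fun z => g (z - z0) := by
    ext z
    simp only [hg]
    rw [sub_add_cancel]
  rw [e1, LL_shift q g]
  have hci : ∀ r θ, ci g r θ = f (cir c r θ) := by
    intro r θ
    unfold ci
    simp only [hg]
    rw [cir_eq]
  have hz0n : ‖z0‖ ≤ D := by
    have h1 : ‖z0‖ ^ 2 ≤ D ^ 2 := by
      rw [nsq]
      simpa [hz0] using hc
    exact (abs_le_of_sq_le_sq' h1 hD).2
  have hgR : ∀ ξ, D + 2 ≤ ‖ξ‖ → g ξ = 0 := by
    intro z hz
    simp only [hg]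
    apply hf
    have h5 : ‖z‖ ≤ ‖z + z0‖ + ‖z0‖ := by
      calc ‖z‖ = ‖(z + z0) - z0‖ := by rw [add_sub_cancel_right]
        _ ≤ _ := norm_sub_le _ _
    have h6 : 2 ≤ ‖z + z0‖ := by linarith
    have h7 := nsq (z + z0)
    unfold tc
    simp only
    rw [← h7]
    nlinarith
  have hg0 : ∀ r θ, D + 2 ≤ r → ci g r θ = 0 := by
    intro r θ hr
    unfold ci
    apply hgR
    rw [norm_pol _ _ (by linarith)]
    exact hr
  set k : ℝ → ℝ := fun r => if r < D + 2 then κ r else 0 with hk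
  have hk0 : ∀ r, 0 < r → 0 ≤ k r := by
    intro r hr
    simp only [hk]
    split_ifs
    · exact hκ0 r hr
    · exact le_rfl
  have hkle : ∀ r, 0 < r → k r ≤ κ r := by
    intro r hr
    simp only [hk]
    split_ifs
    · exact le_rfl
    · exact hκ0 r hr
  have hka : AntitoneOn k (Ioi 0) := by
    intro r hr s hs hrs
    simp only [hk]
    split_ifs with h1 h2 h2
    · exact hκ hr hs hrs
    · exact absurd (hrs.trans_lt h1) h2
    · exact hκ0 r hr
    · exact le_rfl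
  have hkv : ∀ r s, 0 < r → r ≤ s → Iq q (fun θ => ci g s θ - ci g r θ) ^ (1 / q) ≤ ENNReal.ofReal (k r - k s) := by
    intro r s hr hs
    have h1 := hv r s hr hs
    rw [← Iq_eq q hq0] at h1
    simp only [← hci] at h1
    rcases lt_or_ge r (D + 2) with h2 | h2
    · rcases lt_or_ge s (D + 2) with h3 | h3
      · simp only [hk]
        rw [if_pos h2, if_pos h3]
        exact h1
      · simp only [hk]
        rw [if_pos h2, if_neg (not_lt.2 h3)]
        refine h1.trans (ENNReal.ofReal_le_ofReal ?_)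
        have := hκ0 s (hr.trans_le hs)
        linarith
    · have h3 : ∀ θ, ci g s θ - ci g r θ = 0 := by
        intro θ
        rw [hg0 s θ (h2.trans hs), hg0 r θ h2, sub_zero]
      unfold Iq
      simp only [h3, enorm_zero]
      rw [ENNReal.zero_rpow_of_pos hq0, lintegral_zero, ENNReal.zero_rpow_of_pos (by positivity)]
      exact zero_le
  refine (h g hgm hgR k hka hk0 (fun r hr => by simp only [hk]; rw [if_neg (not_lt.2 hr)]) hkv).trans ?_
  apply mul_le_mul_right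
  apply ENNReal.rpow_le_rpow _ (by positivity)
  unfold Jq
  apply setLIntegral_mono' measurableSet_Ioi
  intro r hr
  apply mul_le_mul_right
  apply ENNReal.rpow_le_rpow _ hq0.le
  exact ENNReal.ofReal_le_ofReal (hkle r hr)

end Pool.Agent.Y250.AM
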