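import Mathlib
import Pool.Agent.Y250.AM.F1
import Pool.Agent.TH277.CB.C
set_option autoImplicit false
set_option linter.unusedSectionVars false

/-! The mixed norm of a block in the normalisation with `2π`. -/

namespace Pool.Agent.Y250.AM

open MeasureTheory Set Complex Filter Topology
open scoped ENNReal NNReal ContDiff
open Pool.Agent.Y250.AN
open Pool.Agent.TH277.CS (s2)
open Pool.Agent.TH277.CB (Q2 pq Phi Phi_mp EE_blk lint_pi2 E2t_meas E2_meas sch_time Q2_s2)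
open Pool.Agent.TH277.HT (ch EE EE_meas Sch Adm E1 E1_meas E1t_meas EE_mult lint_pi mix)

variable {mx : ℝ} [hmx : Fact (1 ≤ mx)]

lemma E2_eq (G : ℝ × ℝ → ℂ) (y : ℝ × ℝ) (t : ℝ) :
    Pool.Agent.TH277.CB.E2 G y t = AN.Ext (fun z => G (tc z))
      ((-(2 * Real.pi)) • ((y.1 : ℂ) + (y.2 : ℂ) * I), -(2 * Real.pi) * t) := by
  unfold Pool.Agent.TH277.CB.E2 AN.Ext
  rw [← tc_mp.integral_comp tc_emb]
  apply integral_congr_ae
  refine Filter.Eventually.of_forall fun z => ?_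
  simp only
  congr 1
  unfold pq ch ee tc
  rw [nsq]
  unfold dt s2 Pool.Agent.TH277.CP.sq
  congr 1
  simp only [Complex.smul_re, Complex.smul_im, Complex.add_re, Complex.add_im, Complex.mul_re, Complex.mul_im,
    Complex.ofReal_re, Complex.ofReal_im, Complex.I_re, Complex.I_im, smul_eq_mul]
  push_cast
  ring

lemma E2_LS (q : ℝ) (hq : 0 < q) (G : ℝ × ℝ → ℂ) (hG : Measurable G) (t : ℝ) :
    ∫⁻ y : ℝ × ℝ, ‖Pool.Agent.TH277.CB.E2 G y t‖ₑ ^ q ≤ LS q (fun z => G (tc z)) (-(2 * Real.pi) * t) := by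
  have hm : Measurable fun y : ℝ × ℝ => ‖Pool.Agent.TH277.CB.E2 G y t‖ₑ ^ q :=
    (E2t_meas G hG.stronglyMeasurable t).pow_const q
  rw [← tc_mp.lintegral_comp hm]
  have e : ∀ z : ℂ, ‖Pool.Agent.TH277.CB.E2 G (tc z) t‖ₑ ^ q =
      (fun x : ℂ => ‖AN.Ext (fun z => G (tc z)) (x, -(2 * Real.pi) * t)‖ₑ ^ q) ((-(2 * Real.pi)) • z) := by
    intro z
    rw [E2_eq]
    unfold tc
    simp only [Complex.re_add_im]
  simp only [e]
  rw [lint_smul (-(2 * Real.pi)) (by have := Real.pi_pos; linarith)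
    (fun x : ℂ => ‖AN.Ext (fun z => G (tc z)) (x, -(2 * Real.pi) * t)‖ₑ ^ q)]
  unfold LS
  calc _ ≤ 1 * ∫⁻ x : ℂ, ‖AN.Ext (fun z => G (tc z)) (x, -(2 * Real.pi) * t)‖ₑ ^ q := by
        apply mul_le_mul' _ le_rfl
        rw [ENNReal.ofReal_le_one, abs_of_nonneg (by positivity)]
        apply inv_le_one_of_one_le₀
        have := Real.pi_gt_three
        nlinarith
    _ = _ := one_mul _

lemma E2_mix (q : ℝ) (hq : 1 ≤ q) (G : ℝ × ℝ → ℂ) (hG : Measurable G) :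
    ∫⁻ t : ℝ, (∫⁻ y : ℝ × ℝ, ‖Pool.Agent.TH277.CB.E2 G y t‖ₑ ^ q) ^ mx ≤ (LL mx q (fun z => G (tc z)) ^ q) ^ mx := by
  have hm0 : 0 < mx := s_pos
  have hq0 : 0 < q := by linarith
  have h1 : (LL mx q (fun z => G (tc z)) ^ q) ^ mx = ∫⁻ t, LS q (fun z => G (tc z)) t ^ mx := by
    rw [LL_pow q hq, ← ENNReal.rpow_mul, one_div_mul_cancel hm0.ne', ENNReal.rpow_one]
  rw [h1]
  calc _ ≤ ∫⁻ t : ℝ, (fun t => LS q (fun z => G (tc z)) t ^ mx) (-(2 * Real.pi) * t) :=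
        lintegral_mono fun t => ENNReal.rpow_le_rpow (E2_LS q hq0 G hG t) hm0.le
    _ = ENNReal.ofReal |(-(2 * Real.pi))⁻¹| * ∫⁻ t, LS q (fun z => G (tc z)) t ^ mx :=
        lint_mul_real (-(2 * Real.pi)) (by have := Real.pi_pos; linarith) (fun t => LS q (fun z => G (tc z)) t ^ mx)
    _ ≤ 1 * ∫⁻ t, LS q (fun z => G (tc z)) t ^ mx := by
        apply mul_le_mul' _ le_rfl
        rw [ENNReal.ofReal_le_one, abs_inv, abs_neg, abs_of_pos (by positivity)]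
        apply inv_le_one_of_one_le₀
        have := Real.pi_gt_three
        linarith
    _ = _ := one_mul _

/-- time translation -/
lemma LL_time (q τ : ℝ) (F : ℂ → ℂ) : LL mx q (fun z => ee (τ * ‖z‖ ^ 2) * F z) = LL mx q F := by
  have e : ∀ (x : ℂ) (t : ℝ), AN.Ext (fun z => ee (τ * ‖z‖ ^ 2) * F z) (x, t) = AN.Ext F (x, t - τ) := by
    intro x t
    unfold AN.Ext
    apply integral_congr_ae
    refine Filter.Eventually.of_forall fun ξ => ?_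
    simp only
    rw [← mul_assoc, ← ee_add]
    congr 2
    ring
  have h : ∀ t, LS q (fun z => ee (τ * ‖z‖ ^ 2) * F z) t = LS q F (t - τ) := by
    intro t
    unfold LS
    simp only [e]
  unfold LL
  simp only [h]
  congr 2
  exact lintegral_sub_right_eq_self (μ := (volume : Measure ℝ)) (fun t => LS q F t ^ mx) τ

/-- a block -/
noncomputable def bl (τ : ℝ) (G : ℝ × ℝ → ℂ) (x : ℝ × ℝ) : ℂ :=
  cexp ((τ * (x.1 ^ 2 + x.2 ^ 2) : ℝ) * I) * G x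

lemma bl_meas (τ : ℝ) (G : ℝ × ℝ → ℂ) (hG : Measurable G) : Measurable (bl τ G) := by
  unfold bl
  have : Continuous fun x : ℝ × ℝ => cexp ((τ * (x.1 ^ 2 + x.2 ^ 2) : ℝ) * I) := by fun_prop
  exact this.measurable.mul hG

theorem block (n : ℕ) (hn2 : 2 ≤ n) (q : ℝ) (hq : 2 * ((n : ℝ) + 1) / n < q) (D : ℝ) (hD : 0 ≤ D) :
    ∃ C : ℝ, 0 < C ∧ ∀ (G : ℝ × ℝ → ℂ), Measurable G → (∀ x, x ∉ Q2 → G x = 0) →
    ∀ (c : ℝ × ℝ), c.1 ^ 2 + c.2 ^ 2 ≤ D ^ 2 → ∀ κ : ℝ → ℝ,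
    AntitoneOn κ (Ioi 0) → (∀ r, 0 < r → 0 ≤ κ r) →
    (∀ r s, 0 < r → r ≤ s →
      eLpNorm (fun θ => G (cir c s θ) - G (cir c r θ)) (ENNReal.ofReal q)
        (volume.restrict (Ioo (-Real.pi) Real.pi)) ≤ ENNReal.ofReal (κ r - κ s)) →
    ∀ τ : ℝ, (∫⁻ t : ℝ, (∫⁻ y : ℝ × ℝ, ‖Pool.Agent.TH277.CB.E2 (bl τ G) y t‖ₑ ^ q) ^ ((n : ℝ) / 2)) ^ (2 / (n : ℝ)) ≤
      ENNReal.ofReal C * Jq q κ := by
  have hn0 : (2 : ℝ) ≤ n := by exact_mod_cast hn2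
  haveI : Fact (1 ≤ (n : ℝ) / 2) := ⟨by linarith⟩
  have hq' : 2 + 1 / ((n : ℝ) / 2) < q := by
    have : 2 + 1 / ((n : ℝ) / 2) = 2 * ((n : ℝ) + 1) / n := by
      field_simp
    rw [this]
    exact hq
  obtain ⟨C, hC, h⟩ := blk (mx := (n : ℝ) / 2) q hq' D hD
  have hmi : (0 : ℝ) < 1 / ((n : ℝ) / 2) := by positivity
  have hq0 : 0 < q := by linarith
  refine ⟨C ^ q, by positivity, ?_⟩
  intro G hG hG0 c hc κ hκ hκ0 hv τ
  have h1 := h G hG (fun x hx => hG0 x (fun hin => by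
    have h2 : s2 x ≤ 2 := Q2_s2 hin
    have h3 : s2 x = x.1 ^ 2 + x.2 ^ 2 := rfl
    linarith)) c hc κ hκ hκ0 hv
  have e : (fun z : ℂ => bl τ G (tc z)) = fun z => ee (τ * ‖z‖ ^ 2) * G (tc z) := by
    ext z
    unfold bl ee
    rw [nsq]
    rfl
  have h2 := E2_mix (mx := (n : ℝ) / 2) q (by linarith) (bl τ G) (bl_meas τ G hG)
  rw [e, LL_time] at h2
  calc _ ≤ ((LL ((n : ℝ) / 2) q (fun z => G (tc z)) ^ q) ^ ((n : ℝ) / 2)) ^ (2 / (n : ℝ)) :=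
        ENNReal.rpow_le_rpow h2 (by positivity)
    _ = LL ((n : ℝ) / 2) q (fun z => G (tc z)) ^ q := by
        rw [← ENNReal.rpow_mul, div_mul_div_comm, mul_comm (n : ℝ) 2, div_self (by positivity), ENNReal.rpow_one]
    _ ≤ (ENNReal.ofReal C * Jq q κ ^ (1 / q)) ^ q := ENNReal.rpow_le_rpow h1 hq0.le
    _ = _ := by
        rw [ENNReal.mul_rpow_of_nonneg _ _ hq0.le, ← ENNReal.rpow_mul, one_div_mul_cancel hq0.ne', ENNReal.rpow_one,
          ENNReal.ofReal_rpow_of_pos hC]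

end Pool.Agent.Y250.AM
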