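import Mathlib
import Pool.Agent.Y250.AM.F2
set_option autoImplicit false
set_option linter.unusedSectionVars false

/-! Products of blocks. -/

namespace Pool.Agent.Y250.AM

open MeasureTheory Set Complex Filter Topology
open scoped ENNReal NNReal ContDiff
open Pool.Agent.Y250.AN
open Pool.Agent.TH277.CS (s2)
open Pool.Agent.TH277.CB (Q2 pq Phi Phi_mp EE_blk lint_pi2 E2t_meas E2_meas sch_time Q2_s2)
open Pool.Agent.TH277.HT (ch EE EE_meas Sch Adm E1 E1_meas E1t_meas EE_mult lint_pi mix)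

attribute [local irreducible] E1 Pool.Agent.TH277.CB.E2

theorem main (m₁ m₂ n : ℕ) (hm₂ : 1 ≤ m₂) (hn : n = m₁ + 2 * m₂) (q : ℝ)
    (hq : 2 * ((n : ℝ) + 1) / n < q) (D : ℝ) (hD : 0 ≤ D) :
    ∃ C : ℝ≥0, ∀ (e : Fin m₁ ⊕ (Fin m₂ ⊕ Fin m₂) ≃ Fin n) (H : Type) [NormedAddCommGroup H]
      [InnerProductSpace ℂ H] [CompleteSpace H]
      (M : ContinuousMultilinearMap ℂ (fun _ : Fin m₁ => H) ℂ) (a : Fin m₁ → ℝ → H),
      ‖M‖ ≤ 1 → (∀ j, Adm (a j)) → ∀ (G : Fin m₂ → ℝ × ℝ → ℂ) (c : Fin m₂ → ℝ × ℝ) (κ : Fin m₂ → ℝ → ℝ)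
        (τ : Fin m₂ → ℝ),
        (∀ j, Measurable (G j)) → (∀ j x, x ∉ Q2 → G j x = 0) → (∀ j, (c j).1 ^ 2 + (c j).2 ^ 2 ≤ D ^ 2) →
        (∀ j, AntitoneOn (κ j) (Ioi 0)) → (∀ j r, 0 < r → 0 ≤ κ j r) →
        (∀ j r s, 0 < r → r ≤ s →
          eLpNorm (fun θ => G j (cir (c j) s θ) - G j (cir (c j) r θ)) (ENNReal.ofReal q)
            (volume.restrict (Ioo (-Real.pi) Real.pi)) ≤ ENNReal.ofReal (κ j r - κ j s)) →
        ∫⁻ y : (Fin n → ℝ) × ℝ,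
          ‖EE (fun ξ => M (fun j => a j ((Phi e ξ).1 j)) * ∏ j, bl (τ j) (G j) ((Phi e ξ).2 j)) y‖ₑ ^ q ≤
            C * ∏ j, Jq q (κ j) := by
  have hn2 : 2 ≤ n := by omega
  have hn0' : 0 < n := by omega
  have hn0 : (0 : ℝ) < n := by exact_mod_cast hn0'
  have hq2 : 2 < q := by
    have h1 : 2 < 2 * ((n : ℝ) + 1) / n := by
      rw [lt_div_iff₀ hn0]
      linarith
    linarith
  have hq0 : 0 < q := by linarith
  obtain ⟨C, hC⟩ := mix n hn2 q hq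
  obtain ⟨C2, hC2, hblock⟩ := block n hn2 q hq D hD
  set p : Fin m₁ ⊕ Fin m₂ → ℝ := Sum.elim (fun _ => 1 / (n : ℝ)) (fun _ => 2 / (n : ℝ)) with hp
  have hsum : ∑ i, p i = 1 := by
    rw [Fintype.sum_sum_type]
    simp only [hp, Sum.elim_inl, Sum.elim_inr, Finset.sum_const, Finset.card_univ, Fintype.card_fin, nsmul_eq_mul]
    have h1 : (n : ℝ) = m₁ + 2 * m₂ := by exact_mod_cast hn
    rw [mul_one_div, mul_div_assoc', ← add_div, mul_comm (m₂ : ℝ) 2, ← h1, div_self hn0.ne']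
  set K : ℝ≥0∞ := ((C : ℝ≥0∞) ^ (1 / (n : ℝ))) ^ m₁ * (ENNReal.ofReal C2) ^ m₂ with hK
  have hKt : K ≠ ⊤ := by
    rw [hK]
    apply ENNReal.mul_ne_top
    · exact ENNReal.pow_ne_top (ENNReal.rpow_ne_top_of_nonneg (by positivity) ENNReal.coe_ne_top)
    · exact ENNReal.pow_ne_top ENNReal.ofReal_ne_top
  refine ⟨K.toNNReal, ?_⟩
  intro e H _ _ _ M a hM ha G' c κ τ hG' hG'0 hc hκ hκ0 hv
  rw [ENNReal.coe_toNNReal hKt]
  set s : (Fin m₁ → ℝ) → ℂ := fun ξ => M (fun j => a j (ξ j)) with hs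
  have hSch : Sch m₁ s := ⟨H, inferInstance, inferInstance, inferInstance, M, a, hM, ha,
    fun ξ => rfl⟩
  have hsm : StronglyMeasurable s := hSch.meas
  set G : Fin m₂ → ℝ × ℝ → ℂ := fun j => bl (τ j) (G' j) with hG
  have hGm : ∀ j, StronglyMeasurable (G j) := fun j => (bl_meas (τ j) (G' j) (hG' j)).stronglyMeasurable
  have hG0 : ∀ j x, x ∉ Q2 → G j x = 0 := fun j x hx => by
    simp only [hG]
    unfold bl
    rw [hG'0 j x hx, mul_zero]
  set f : (Fin n → ℝ) → ℂ := fun ξ => s (Phi e ξ).1 * ∏ j, G j ((Phi e ξ).2 j) with hf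
  have hfm : StronglyMeasurable f := by
    apply StronglyMeasurable.mul
    · exact hsm.comp_measurable (measurable_fst.comp (Phi_mp e).measurable)
    · apply Finset.stronglyMeasurable_fun_prod
      intro j _
      exact (hGm j).comp_measurable ((measurable_pi_apply j).comp
        (measurable_snd.comp (Phi_mp e).measurable))
  have hEm : Measurable fun y : (Fin n → ℝ) × ℝ => ‖EE f y‖ₑ ^ q :=
    (EE_meas hfm).enorm.pow_const q
  set Bj : Fin m₁ → ℝ → ℝ≥0∞ := fun j t => ∫⁻ x : ℝ, ‖E1 (a j) x t‖ₑ ^ q with hBj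
  have hBm : ∀ j, Measurable (Bj j) := fun j =>
    ((E1_meas (ha j)).enorm.pow_const q).lintegral_prod_left'
  set Aj : Fin m₂ → ℝ → ℝ≥0∞ := fun j t => ∫⁻ y : ℝ × ℝ, ‖Pool.Agent.TH277.CB.E2 (G j) y t‖ₑ ^ q with hAj
  have hAm : ∀ j, Measurable (Aj j) := fun j =>
    (((E2_meas (G j) (hGm j)).enorm).pow_const q).lintegral_prod_left'
  set F : Fin m₁ ⊕ Fin m₂ → ℝ → ℝ≥0∞ := Sum.elim (fun j t => Bj j t ^ (n : ℝ)) (fun j t => Aj j t ^ ((n : ℝ) / 2)) with hF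
  have hFm : ∀ i, Measurable (F i) := by
    rintro (j | j)
    · exact (hBm j).pow_const _
    · exact (hAm j).pow_const _
  -- the bound at a fixed time
  have hfix : ∀ t : ℝ, ∫⁻ x : Fin n → ℝ, ‖EE f (x, t)‖ₑ ^ q ≤ ∏ i, F i t ^ p i := by
    intro t
    set Z : (Fin m₁ → ℝ) × (Fin m₂ → ℝ × ℝ) → ℝ≥0∞ := fun z =>
      ‖EE s (z.1, t)‖ₑ ^ q * ∏ j, ‖Pool.Agent.TH277.CB.E2 (G j) (z.2 j) t‖ₑ ^ q with hZ
    have hEs : Measurable fun x : Fin m₁ → ℝ => ‖EE s (x, t)‖ₑ ^ q :=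
      ((EE_meas hsm).enorm.pow_const q).comp
        (by fun_prop : Measurable fun x : Fin m₁ → ℝ => ((x, t) : (Fin m₁ → ℝ) × ℝ))
    have hEg : ∀ j, Measurable fun y : ℝ × ℝ => ‖Pool.Agent.TH277.CB.E2 (G j) y t‖ₑ ^ q := fun j =>
      (E2t_meas (G j) (hGm j) t).pow_const q
    have hEgp : Measurable fun z : Fin m₂ → ℝ × ℝ => ∏ j, ‖Pool.Agent.TH277.CB.E2 (G j) (z j) t‖ₑ ^ q :=
      Finset.measurable_prod _ fun j _ => (hEg j).comp (measurable_pi_apply j)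
    have hZm : Measurable Z :=
      (hEs.comp measurable_fst).mul (hEgp.comp measurable_snd)
    calc ∫⁻ x : Fin n → ℝ, ‖EE f (x, t)‖ₑ ^ q = ∫⁻ x : Fin n → ℝ, Z (Phi e x) := by
          apply lintegral_congr
          intro x
          rw [hf, EE_blk e hsm hGm hG0 x t, enorm_mul, ENNReal.mul_rpow_of_nonneg _ _ hq0.le]
          simp only [hZ]
          congr 1
          rw [ENNReal.prod_rpow_of_nonneg hq0.le]
          congr 1
          rw [← ofReal_norm, norm_prod, ENNReal.ofReal_prod_of_nonneg fun j _ => norm_nonneg _]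
          apply Finset.prod_congr rfl
          intro j _
          rw [ofReal_norm]
      _ = ∫⁻ z, Z z := (Phi_mp e).lintegral_comp hZm
      _ = (∫⁻ x : Fin m₁ → ℝ, ‖EE s (x, t)‖ₑ ^ q) *
            ∫⁻ z : Fin m₂ → ℝ × ℝ, ∏ j, ‖Pool.Agent.TH277.CB.E2 (G j) (z j) t‖ₑ ^ q := by
          rw [Measure.volume_eq_prod]
          exact lintegral_prod_mul hEs.aemeasurable hEgp.aemeasurable
      _ = (∫⁻ x : Fin m₁ → ℝ, ‖EE s (x, t)‖ₑ ^ q) * ∏ j, Aj j t := by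
          rw [lint_pi2 (fun j y => ‖Pool.Agent.TH277.CB.E2 (G j) y t‖ₑ ^ q) hEg]
      _ ≤ (∏ j, Bj j t) * ∏ j, Aj j t := by
          gcongr
          exact sch_time hq0 M hM ha t
      _ = _ := by
          rw [Fintype.prod_sum_type]
          simp only [hF, hp, Sum.elim_inl, Sum.elim_inr]
          have h1 : ∀ j, (Bj j t ^ (n : ℝ)) ^ (1 / (n : ℝ)) = Bj j t := by
            intro j
            rw [← ENNReal.rpow_mul, mul_one_div_cancel hn0.ne', ENNReal.rpow_one]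
          have h2 : ∀ j, (Aj j t ^ ((n : ℝ) / 2)) ^ (2 / (n : ℝ)) = Aj j t := by
            intro j
            rw [← ENNReal.rpow_mul, div_mul_div_comm, mul_comm (n : ℝ) 2, div_self (by positivity),
              ENNReal.rpow_one]
          simp only [h1, h2]
  rw [Measure.volume_eq_prod, lintegral_prod_symm _ hEm.aemeasurable]
  calc ∫⁻ t : ℝ, ∫⁻ x : Fin n → ℝ, ‖EE f (x, t)‖ₑ ^ q
      ≤ ∫⁻ t : ℝ, ∏ i, F i t ^ p i := lintegral_mono hfix
    _ ≤ ∏ i, (∫⁻ t : ℝ, F i t) ^ p i := by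
        apply ENNReal.lintegral_prod_norm_pow_le _ (fun i _ => (hFm i).aemeasurable) hsum
        rintro (j | j) _
        · simp only [hp, Sum.elim_inl]; positivity
        · simp only [hp, Sum.elim_inr]; positivity
    _ = (∏ j : Fin m₁, (∫⁻ t : ℝ, Bj j t ^ (n : ℝ)) ^ (1 / (n : ℝ))) *
          ∏ j : Fin m₂, (∫⁻ t : ℝ, Aj j t ^ ((n : ℝ) / 2)) ^ (2 / (n : ℝ)) := by
        rw [Fintype.prod_sum_type]
        simp only [hF, hp, Sum.elim_inl, Sum.elim_inr]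
    _ ≤ (∏ _j : Fin m₁, (C : ℝ≥0∞) ^ (1 / (n : ℝ))) * ∏ j : Fin m₂, (ENNReal.ofReal C2 * Jq q (κ j)) := by
        gcongr with j _ j _
        · exact hC H (a j) (ha j)
        · exact hblock (G' j) (hG' j) (hG'0 j) (c j) (hc j) (κ j) (hκ j) (hκ0 j) (hv j) (τ j)
    _ = K * ∏ j, Jq q (κ j) := by
        rw [Finset.prod_mul_distrib, Finset.prod_const, Finset.prod_const, Finset.card_univ, Finset.card_univ,
          Fintype.card_fin, Fintype.card_fin, hK]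
        ring

end Pool.Agent.Y250.AM
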